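import Pool.Agent.Lib.H38H.R.R9

/-!
Chunk SLR10 (M). The exponential moment of the number of flags.
-/

set_option autoImplicit false

namespace Pool.Agent.H38H

open Classical

variable {ι : Type} [Fintype ι] {L : ℕ}

/-- PROOF. Induction on `A` (for `s :: A`: `(s :: A).length ≤ M` gives `A.length ≤ M`). `avg_tower` with `iK_stop` for `A`: the average of `X ^ nflag (s :: A)` is the average over `h'` of the average over
`h'' ∈ cyl (iK A h') h'` of `X ^ nflag h'' A * X ^ (flag)`. There `nflag h'' A = nflag h' A` (`nflag_congr`), and `X ^ (if flag then 1 else 0) ≤ 1 + X * (if flag then 1 else 0)`, so the inner average is at most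
`X ^ nflag h' A * (1 + X * δ)` (`avg_add`, `avg_const`, `avg_smul`, hypothesis `hδ`). Now `avg_smul` and the induction hypothesis. -/
theorem moment (I : Inst ι L) (Rt : Finset ι) (ℓ M : ℕ) {X δ : ℝ} (hX : 1 ≤ X) (hδ0 : 0 ≤ δ)
    (hδ : ∀ (s : Ix ι) (A : List (Ix ι)), GdL (s :: A) → A.length ≤ M → ∀ h : SB ι,
      avg (I.iK (fun s => s ∈ A) h) h (fun h' => if I.flag Rt ℓ A h' s then 1 else 0) ≤ δ)
    {A : List (Ix ι)} (g : GdL A) (hA : A.length ≤ M) (h : SB ι) :
    avg ∅ h (fun h' => X ^ I.nflag Rt ℓ h' A) ≤ (1 + X * δ) ^ A.length := by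
  induction A with
  | nil =>
    simp only [Inst.nflag, pow_zero, List.length_nil]
    rw [avg_const]
  | cons s A ih =>
    have hA' : A.length ≤ M := by
      simp only [List.length_cons] at hA
      omega
    have ih' := ih g.1 hA'
    have hX0 : (0 : ℝ) ≤ X := by linarith
    have h1 : (0 : ℝ) ≤ 1 + X * δ := by positivity
    have hst := iK_stop I g.1.pc h
    rw [avg_tower hst]
    have h2 : ∀ h' ∈ cyl ∅ h, avg (I.iK (fun s => s ∈ A) h') h' (fun h'' => X ^ I.nflag Rt ℓ h'' (s :: A)) ≤
        (1 + X * δ) * X ^ I.nflag Rt ℓ h' A := by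
      intro h' _
      have h3 : ∀ h'' ∈ cyl (I.iK (fun s => s ∈ A) h') h', X ^ I.nflag Rt ℓ h'' (s :: A) ≤
          X ^ I.nflag Rt ℓ h' A * (1 + X * (if I.flag Rt ℓ A h'' s then 1 else 0)) := by
        intro h'' hh
        have h4 := nflag_congr I Rt ℓ g.1 hh
        simp only [Inst.nflag]
        rw [h4, pow_add]
        apply mul_le_mul_of_nonneg_left _ (pow_nonneg hX0 _)
        split_ifs with h5
        · simp
        · simp
      refine (avg_mono h3).trans ?_
      rw [avg_smul, avg_add, avg_const, avg_smul, mul_comm]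
      apply mul_le_mul_of_nonneg_right _ (pow_nonneg hX0 _)
      have h6 := hδ s A g hA' h'
      have h7 := mul_le_mul_of_nonneg_left h6 hX0
      linarith
    refine (avg_mono h2).trans ?_
    rw [avg_smul, List.length_cons, pow_succ, mul_comm]
    exact mul_le_mul_of_nonneg_right ih' h1

end Pool.Agent.H38H
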