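import Pool.Agent.Lib.H38H.R.R12

/-!
Chunk SLR13 (M). Under the root condition at most twice as many indices are restricted as flagged.
-/

set_option autoImplicit false

namespace Pool.Agent.H38H

open Classical

variable {ι : Type} [Fintype ι] {L : ℕ}

/-- PROOF. Let `Fl = {s | ∃ A', (s :: A') <:+ A ∧ flag A' h s}` (finite, `ncard ≤ nflag`: `flagged_card`), `Re` the set of restricted indices (finite). All suffixes `s :: A'` of `A` are good (`GdL.suffix`) and consist of roots and strings shorter than `r`. CLAIM: for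
`s ∈ Re`, `s ∉ Fl` there is `s' ∈ Fl`, `s' ≠ s`, whose target `p'` satisfies `p ∈ ball (5 ℓ + 2) p'` (`p` = target of `s`). Proof: `s ∈ A`, so `s :: A' <:+ A` for some `A'` (`List.append_of_mem`). `p` is not short and not near a root slot, otherwise `flag_of` (`ball_mono`). So there is `s' ≠ s`
with target `p'` near `p`. By `before_total`: if `s' ∈ A''` with `s :: A'' <:+ A` then `s` is flagged by `flag_of`; so `s ∈ A''` with `s' :: A'' <:+ A` and `s'` is flagged (`ball_symm`, `ball_mono`). Choose such an `f s = s'`. INJECTIVE: if `f s1 = f s2 = s'`, `s1 ≠ s2`, then `p2 ∈ ball (10 ℓ + 4) p1`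
(`ball_symm`, `ball_triangle`), and by `before_total`, `flag_of` `s1` or `s2` is flagged. So `|Re \ Fl| ≤ |Fl|` (`Set.ncard_le_ncard_of_injOn`) and `|Re| ≤ |Re \ Fl| + |Fl| ≤ 2 |Fl|`. -/
theorem restr_le (I : Inst ι L) {T : Finset (ι × Bool)} {r K0 ℓ : ℕ} {h : SB ι} (rc : I.RC h r K0 T)
    {A : List (Ix ι)} (g : GdL A) (hA : ∀ s, s ∈ A ↔ I.Root T s.1 ∧ s.2.length < r) :
    {s | I.Restr T r ℓ h s}.ncard ≤ 2 * I.nflag (I.rts T) ℓ h A := by
  obtain ⟨hcard, hfin⟩ := flagged_card I (I.rts T) ℓ h A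
  obtain ⟨Fl, hFl⟩ : ∃ Fl : Set (Ix ι), Fl = {s | ∃ A', (s :: A') <:+ A ∧ I.flag (I.rts T) ℓ A' h s} := ⟨_, rfl⟩
  obtain ⟨Re, hRe⟩ : ∃ Re : Set (Ix ι), Re = {s | I.Restr T r ℓ h s} := ⟨_, rfl⟩
  rw [← hFl] at hcard hfin
  rw [← hRe]
  have hRefin : Re.Finite := by
    rw [hRe]
    exact restr_finite' I T r ℓ h
  have hsuf : ∀ s A', (s :: A') <:+ A → GdL (s :: A') ∧ ∀ s' ∈ s :: A', I.Root T s'.1 ∧ s'.2.length < r :=
    fun s A' hs => ⟨g.suffix hs, fun s' hs' => (hA s').1 (hs.subset hs')⟩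
  have hmemFl : ∀ s A', (s :: A') <:+ A → I.flag (I.rts T) ℓ A' h s → s ∈ Fl := by
    intro s A' h1 h2
    rw [hFl]
    exact ⟨A', h1, h2⟩
  have hnear : ∀ s s' p p', s ≠ s' → s ∈ A → s' ∈ A → I.tg h s = some p → I.tg h s' = some p' →
      p ∈ I.ball (10 * ℓ + 4) p' → s ∈ Fl ∨ s' ∈ Fl := by
    intro s s' p p' hne hs hs' hp hp' hb
    rcases before_total hs hs' hne with ⟨A', h1, h2⟩ | ⟨A', h1, h2⟩
    · left
      obtain ⟨g1, g2⟩ := hsuf s A' h1
      exact hmemFl s A' h1 (flag_of I rc g1 g2 hp (Or.inr (Or.inr ⟨s', h2, p', hp', hb⟩)))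
    · right
      obtain ⟨g1, g2⟩ := hsuf s' A' h1
      exact hmemFl s' A' h1 (flag_of I rc g1 g2 hp' (Or.inr (Or.inr ⟨s, h2, p, hp, ball_symm I hb⟩)))
  have hle : 5 * ℓ + 2 ≤ 10 * ℓ + 4 := by omega
  have claim : ∀ s, s ∈ Re \ Fl → ∃ s', s' ∈ Fl ∧ s ∈ A ∧ ∃ p p', I.tg h s = some p ∧ I.tg h s' = some p' ∧
      p ∈ I.ball (5 * ℓ + 2) p' := by
    rintro s ⟨hs, hsF⟩
    rw [hRe] at hs
    obtain ⟨hr, hlen, p, hp, hc⟩ := hs
    have hsA : s ∈ A := (hA s).2 ⟨hr, hlen⟩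
    obtain ⟨B, A', hAB⟩ := List.append_of_mem hsA
    have h1 : (s :: A') <:+ A := ⟨B, hAB.symm⟩
    obtain ⟨g1, g2⟩ := hsuf s A' h1
    rcases hc with hc | ⟨y, hy, hc⟩ | ⟨s', hne, hr', hlen', p', hp', hc⟩
    · exact absurd (hmemFl s A' h1 (flag_of I rc g1 g2 hp (Or.inl hc))) hsF
    · exact absurd (hmemFl s A' h1 (flag_of I rc g1 g2 hp (Or.inr (Or.inl ⟨y, hy, ball_mono I hle _ hc⟩)))) hsF
    · have hsA' : s' ∈ A := (hA s').2 ⟨hr', hlen'⟩
      rcases hnear s s' p p' (Ne.symm hne) hsA hsA' hp hp' (ball_mono I hle _ hc) with h2 | h2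
      · exact absurd h2 hsF
      · exact ⟨s', h2, hsA, p, p', hp, hp', hc⟩
  choose! f hf1 hf2 hf3 using claim
  have hdiff : (Re \ Fl).ncard ≤ Fl.ncard := by
    apply Set.ncard_le_ncard_of_injOn f hf1 _ hfin
    intro s1 h1 s2 h2 he
    by_contra hne
    obtain ⟨p1, p1', hp1, hp1', hb1⟩ := hf3 s1 h1
    obtain ⟨p2, p2', hp2, hp2', hb2⟩ := hf3 s2 h2
    have e : p1' = p2' := by
      rw [he, hp2'] at hp1'
      exact (Option.some.inj hp1').symm
    rw [← e] at hb2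
    have hb3 := ball_triangle I (ball_symm I hb2) hb1
    have e3 : 5 * ℓ + 2 + (5 * ℓ + 2) = 10 * ℓ + 4 := by omega
    rw [e3] at hb3
    rcases hnear s1 s2 _ _ hne (hf2 s1 h1) (hf2 s2 h2) hp1 hp2 hb3 with h4 | h4
    · exact h1.2 h4
    · exact h2.2 h4
  have hsum : Re.ncard ≤ (Re \ Fl).ncard + Fl.ncard := Set.ncard_le_ncard_sdiff_add_ncard Re Fl hfin
  omega

end Pool.Agent.H38H
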