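import Pool.Agent.Lib.H38H.NU

/-!
Chunk SLR14 (M). Numbers.
-/

set_option autoImplicit false

namespace Pool.Agent.H38H

theorem slr14_S {g P l M : ℝ} (hg : 100 ≤ g) (hP : 1 ≤ P) (hl : 0 ≤ l) (hM : 0 ≤ M) (h1 : 1000 * l ≤ g)
    (h2 : 250 * M ≤ g) : 20 * P * l + (2 * M + 1 + 4 * l) * (20 * P + 9) ≤ P * g := by
  have e1 : 20 * P * l ≤ P * (g / 50) := by
    have : 20 * l ≤ g / 50 := by linarith
    calc 20 * P * l = P * (20 * l) := by ring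
      _ ≤ P * (g / 50) := mul_le_mul_of_nonneg_left this (by linarith)
  have e2 : (2 * M + 1 + 4 * l) * (20 * P + 9) ≤ (g / 40) * (29 * P) := by
    apply mul_le_mul
    · linarith
    · linarith
    · linarith
    · linarith
  have e3 : (g / 40) * (29 * P) = P * (g * (29 / 40)) := by ring
  have e4 : 0 ≤ P * g := by
    apply mul_nonneg <;> linarith
  have e5 : P * (g / 50) + P * (g * (29 / 40)) = (P * g) * (1 / 50 + 29 / 40) := by ring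
  nlinarith

/-- PROOF. Let `g = gg n`, `C = 1000 * 2 ^ r`. For large `n`: `g ≥ 2` (`gg_tendsto`), `C * (log n)^3 ≤ g` (`log_le_gg`), so `C * L ≤ g` and `M = 4 L * 2 ^ r ≤ g / 250`; `g ^ 1000 ≤ n` (`gg_le`). (1) `2 (2 M + 1) < n`: `4 M + 2 ≤ g + 2 < g ^ 1000`. (2) With `ℓ = g ^ 950 ≥ 1`:
`20 ℓ L + (2 M + 1 + 4 L) (20 ℓ + 9) ≤ ℓ g + g * 29 ℓ * (1/2) ...`, at most `4 g ^ 951` if `g ≥ 100` (`2 M + 1 + 4 L ≤ g / 50 + 1 ≤ g / 20`); so `δ ≤ 8 g ^ 951 / g ^ 1000 ≤ g ^ (-46)` as `g ^ 3 ≥ 8`. (3) `X = g ^ 44`: `X δ ≤ 1 / g ^ 2`, `(1 + 1/g^2)^M ≤ exp (M / g^2) ≤ exp (1/g) ≤ 2` (`Real.add_one_le_exp`,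
`nu_exp_half`). -/
theorem rc_numbers (r : ℕ) : ∃ n₀ : ℕ, ∀ n : ℕ, n₀ ≤ n → ∀ L : ℕ, (L : ℝ) ≤ (Real.log n) ^ 3 →
    2 ≤ gg n ∧ 2 * (2 * (4 * L * 2 ^ r) + 1) < n ∧
    (1 + (gg n : ℝ) ^ 44 * (2 * (20 * (gg n : ℝ) ^ 950 * L + (2 * (4 * L * 2 ^ r) + 1 + 4 * L) *
      (20 * (gg n : ℝ) ^ 950 + 9)) / n)) ^ (4 * L * 2 ^ r) ≤ 2 := by
  obtain ⟨n1, hn1⟩ := gg_tendsto 100
  obtain ⟨n2, hn2⟩ := log_le_gg (1000 * 2 ^ r) 3
  refine ⟨max (max n1 n2) 1, fun n hn L hL => ?_⟩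
  have hg1 := hn1 n ((le_max_left _ _).trans ((le_max_left _ _).trans hn))
  have hg2 := hn2 n ((le_max_right _ _).trans ((le_max_left _ _).trans hn))
  have hn0 : 1 ≤ n := (le_max_right _ _).trans hn
  have hg3 := gg_le n hn0
  generalize gg n = G at hg1 hg2 hg3 ⊢
  have h2r : (1 : ℝ) ≤ 2 ^ r := one_le_pow₀ (by norm_num)
  have hLM : (1000 : ℝ) * 2 ^ r * L ≤ G := by
    refine le_trans ?_ hg2
    exact mul_le_mul_of_nonneg_left hL (by positivity)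
  have hL0 : (0 : ℝ) ≤ L := Nat.cast_nonneg L
  have hM : (250 : ℝ) * (4 * L * 2 ^ r) ≤ G := by
    refine le_trans (le_of_eq ?_) hLM
    ring
  have hl : (1000 : ℝ) * L ≤ G := by
    refine le_trans ?_ hLM
    nlinarith
  have hG : (100 : ℝ) ≤ G := by exact_mod_cast hg1
  have hG0 : (0 : ℝ) < G := by linarith
  have hnG : (G : ℝ) ^ 1000 ≤ n := by exact_mod_cast hg3
  have hnpos : (0 : ℝ) < n := by exact_mod_cast hn0
  have hMnat : 250 * (4 * L * 2 ^ r) ≤ G := by exact_mod_cast hM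
  refine ⟨by omega, ?_, ?_⟩
  · have h1 : G ^ 2 ≤ G ^ 1000 := Nat.pow_le_pow_right (by omega) (by norm_num)
    have h2 : 100 * G ≤ G ^ 2 := by nlinarith
    omega
  · set M : ℕ := 4 * L * 2 ^ r with hMdef
    have hMR : (M : ℝ) = 4 * L * 2 ^ r := by
      rw [hMdef]
      push_cast
      ring
    have hP : (1 : ℝ) ≤ (G : ℝ) ^ 950 := one_le_pow₀ (by linarith)
    have hM0 : (0 : ℝ) ≤ 4 * (L : ℝ) * 2 ^ r := by positivity
    have hS := slr14_S hG hP hL0 hM0 hl hM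
    set S : ℝ := 20 * (G : ℝ) ^ 950 * L + (2 * (4 * (L : ℝ) * 2 ^ r) + 1 + 4 * L) * (20 * (G : ℝ) ^ 950 + 9) with hSdef
    have hS0 : 0 ≤ S := by positivity
    have hX : (G : ℝ) ^ 44 * (2 * S / n) ≤ 2 / (G : ℝ) ^ 5 := by
      have e1 : (G : ℝ) ^ 44 * (2 * S / n) = ((G : ℝ) ^ 44 * (2 * S)) / n := by ring
      rw [e1, div_le_div_iff₀ hnpos (by positivity)]
      calc (G : ℝ) ^ 44 * (2 * S) * (G : ℝ) ^ 5 = 2 * ((G : ℝ) ^ 49 * S) := by ring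
        _ ≤ 2 * ((G : ℝ) ^ 49 * ((G : ℝ) ^ 950 * G)) := by
          apply mul_le_mul_of_nonneg_left _ (by norm_num)
          exact mul_le_mul_of_nonneg_left hS (by positivity)
        _ = 2 * (G : ℝ) ^ 1000 := by ring
        _ ≤ 2 * n := by linarith
    have hX0 : 0 ≤ (G : ℝ) ^ 44 * (2 * S / n) := by positivity
    have hMX : (M : ℝ) * ((G : ℝ) ^ 44 * (2 * S / n)) ≤ 1 / 2 := by
      have e1 : (M : ℝ) ≤ G := by
        rw [hMR]
        linarith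
      calc (M : ℝ) * ((G : ℝ) ^ 44 * (2 * S / n)) ≤ G * (2 / (G : ℝ) ^ 5) :=
            mul_le_mul e1 hX hX0 hG0.le
        _ = 2 / (G : ℝ) ^ 4 := by
          rw [pow_succ (G : ℝ) 4]
          field_simp
        _ ≤ 1 / 2 := by
          rw [div_le_div_iff₀ (by positivity) (by norm_num)]
          have e2 : (100 : ℝ) ^ 4 ≤ (G : ℝ) ^ 4 := pow_le_pow_left₀ (by norm_num) hG 4
          linarith
    calc (1 + (G : ℝ) ^ 44 * (2 * S / n)) ^ M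
        ≤ (Real.exp ((G : ℝ) ^ 44 * (2 * S / n))) ^ M := by
          apply pow_le_pow_left₀ (by linarith)
          have := Real.add_one_le_exp ((G : ℝ) ^ 44 * (2 * S / n))
          linarith
      _ = Real.exp ((M : ℝ) * ((G : ℝ) ^ 44 * (2 * S / n))) := by
          rw [← Real.exp_nat_mul]
      _ ≤ Real.exp (1 / 2) := Real.exp_le_exp.2 hMX
      _ ≤ 2 := nu_exp_half

end Pool.Agent.H38H
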