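import Pool.Agent.Lib.H38H.R.R3
import Pool.Agent.Lib.H38H.R.R10
import Pool.Agent.Lib.H38H.R.R13
import Pool.Agent.Lib.H38H.R.R14

/-!
Chunk SLR15 (M). Few restricted nodes: conclusion.
-/

set_option autoImplicit false

namespace Pool.Agent.H38H

open Classical

variable {ι : Type} [Fintype ι] {L : ℕ}

theorem slr15_one (I : Inst ι L) (r t n G : ℕ) (hcard : Fintype.card ι = n)
    (hM : 2 * (2 * (4 * L * 2 ^ r) + 1) < n) (hG : 2 ≤ G)
    (hnum : (1 + (G : ℝ) ^ 44 * (2 * (20 * (G : ℝ) ^ 950 * L + (2 * (4 * L * 2 ^ r) + 1 + 4 * L) *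
      (20 * (G : ℝ) ^ 950 + 9)) / n)) ^ (4 * L * 2 ^ r) ≤ 2)
    (K0 : ℕ) (T : Finset (ι × Bool)) (hT : I.ValidT K0 T) (h : SB ι) :
    avg ∅ h (fun h' => if I.RC h' r K0 T ∧ 2 * t ≤ {s | I.Restr T r (G ^ 950) h' s}.ncard then 1 else 0) ≤
        2 / (G : ℝ) ^ (40 * t) := by
  obtain ⟨A, gA, hA, hlen⟩ := exists_list (Finset.univ.filter (fun x => I.Root T x)) r
  have hR := root_card' I hT
  have hlenM : A.length ≤ 4 * L * 2 ^ r := hlen.trans (Nat.mul_le_mul_right _ hR)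
  have hRt : (I.rts T).card ≤ 4 * L := by
    unfold Inst.rts
    exact Finset.card_image_le.trans hR
  have hA' : ∀ s, s ∈ A ↔ I.Root T s.1 ∧ s.2.length < r := by
    intro s
    rw [hA, Finset.mem_filter]
    simp only [Finset.mem_univ, true_and]
  have hnpos : (0 : ℝ) < n := by
    have : 0 < n := by omega
    exact_mod_cast this
  have hG1 : (1 : ℝ) ≤ G := by
    have : 1 ≤ G := by omega
    exact_mod_cast this
  have hX : (1 : ℝ) ≤ (G : ℝ) ^ 44 := one_le_pow₀ hG1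
  set δ : ℝ := 2 * (20 * (G : ℝ) ^ 950 * L + (2 * (4 * L * 2 ^ r) + 1 + 4 * L) *
      (20 * (G : ℝ) ^ 950 + 9)) / n with hδdef
  have hδ0 : 0 ≤ δ := by positivity
  have hδ : ∀ (s : Ix ι) (A : List (Ix ι)), GdL (s :: A) → A.length ≤ 4 * L * 2 ^ r → ∀ h : SB ι,
      avg (I.iK (fun s => s ∈ A) h) h (fun h' => if I.flag (I.rts T) (G ^ 950) A h' s then 1 else 0) ≤ δ := by
    intro s B gB hB h1
    refine (flag_prob I (I.rts T) (G ^ 950) gB h1 (by rw [hcard]; omega)).trans ?_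
    rw [hcard, hδdef]
    have e1 : (B.length : ℝ) ≤ 4 * L * 2 ^ r := by exact_mod_cast hB
    have e2 : ((I.rts T).card : ℝ) ≤ 4 * L := by exact_mod_cast hRt
    have e3 : ((G ^ 950 : ℕ) : ℝ) = (G : ℝ) ^ 950 := by push_cast; rfl
    rw [e3]
    have e4 : (0 : ℝ) ≤ 20 * (G : ℝ) ^ 950 + 9 := by positivity
    have e5 : (2 * (B.length : ℝ) + 1 + ((I.rts T).card : ℝ)) * (20 * (G : ℝ) ^ 950 + 9) ≤
        (2 * (4 * L * 2 ^ r) + 1 + 4 * L) * (20 * (G : ℝ) ^ 950 + 9) :=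
      mul_le_mul_of_nonneg_right (by linarith) e4
    apply div_le_div_of_nonneg_right _ hnpos.le
    linarith
  have hmom := moment I (I.rts T) (G ^ 950) (4 * L * 2 ^ r) hX hδ0 hδ gA hlenM h
  have hmom2 : avg ∅ h (fun h' => ((G : ℝ) ^ 44) ^ I.nflag (I.rts T) (G ^ 950) h' A) ≤ 2 := by
    refine hmom.trans (le_trans ?_ hnum)
    apply pow_le_pow_right₀ _ hlenM
    have : 0 ≤ (G : ℝ) ^ 44 * δ := by positivity
    linarith
  have hXt : (0 : ℝ) < ((G : ℝ) ^ 44) ^ t := by positivity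
  have hstep : avg ∅ h (fun h' => if I.RC h' r K0 T ∧ 2 * t ≤ {s | I.Restr T r (G ^ 950) h' s}.ncard then 1 else 0) ≤
      avg ∅ h (fun h' => (1 / ((G : ℝ) ^ 44) ^ t) * ((G : ℝ) ^ 44) ^ I.nflag (I.rts T) (G ^ 950) h' A) := by
    apply avg_mono
    intro h' _
    split_ifs with hc
    · have e1 := restr_le I (ℓ := G ^ 950) hc.1 gA hA'
      have e2 : t ≤ I.nflag (I.rts T) (G ^ 950) h' A := by
        have e3 := hc.2.trans e1
        omega
      rw [one_div_mul_eq_div, le_div_iff₀ hXt, one_mul]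
      exact pow_le_pow_right₀ hX e2
    · positivity
  refine hstep.trans ?_
  rw [avg_smul]
  calc 1 / ((G : ℝ) ^ 44) ^ t * avg ∅ h (fun h' => ((G : ℝ) ^ 44) ^ I.nflag (I.rts T) (G ^ 950) h' A)
      ≤ 1 / ((G : ℝ) ^ 44) ^ t * 2 := mul_le_mul_of_nonneg_left hmom2 (by positivity)
    _ = 2 / ((G : ℝ) ^ 44) ^ t := by ring
    _ ≤ 2 / (G : ℝ) ^ (40 * t) := by
      apply div_le_div_of_nonneg_left (by norm_num) (by positivity)
      rw [← pow_mul]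
      exact pow_le_pow_right₀ hG1 (by omega)

/-- PROOF. `n₀` from `rc_numbers`. `R = {roots}`, `|R| ≤ 4 L` (`root_card'`), `A` from `exists_list`, `M = 4 L * 2 ^ r`, `A.length ≤ M`, `Rt = I.rts T`, `|Rt| ≤ 4 L`, `ℓ = gg n ^ 950`, `X = (gg n) ^ 44 ≥ 1`, `δ` the number in `rc_numbers`. The hypothesis `hδ` of `moment`: `flag_prob` and
`A.length ≤ M` (monotone). So `avg ∅ h (X ^ nflag) ≤ (1 + X δ) ^ A.length ≤ (1 + X δ) ^ M ≤ 2`. If `RC` holds and `2 t ≤ ncard` then `t ≤ nflag` by `restr_le`, so the indicator is at most `X ^ nflag / X ^ t` (otherwise it is 0, and `X ^ nflag / X ^ t ≥ 0`): the average is at most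
`2 / X ^ t = 2 / g ^ (44 t) ≤ 2 / g ^ (40 t)` (`avg_mono`, `avg_smul`). -/
theorem rc_prob' (r t : ℕ) : ∃ n₀ : ℕ, ∀ n : ℕ, n₀ ≤ n → ∀ L : ℕ, (L : ℝ) ≤ (Real.log n) ^ 3 →
    ∀ (ι : Type) [Fintype ι], Fintype.card ι = n → ∀ (I : Inst ι L) (K0 : ℕ) (T : Finset (ι × Bool)),
      I.ValidT K0 T → 1 ≤ K0 → ∀ h : SB ι,
      avg ∅ h (fun h' => if I.RC h' r K0 T ∧ 2 * t ≤ {s | I.Restr T r (gg n ^ 950) h' s}.ncard then 1 else 0) ≤
        2 / (gg n : ℝ) ^ (40 * t) := by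
  obtain ⟨n₀, h0⟩ := rc_numbers r
  refine ⟨n₀, fun n hn L hL ι _ hcard I K0 T hT _ h => ?_⟩
  obtain ⟨hg2, hM, hnum⟩ := h0 n hn L hL
  exact slr15_one I r t n (gg n) hcard hM hg2 hnum K0 T hT h

end Pool.Agent.H38H
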