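import Pool.Agent.Lib.H38H.R.R0
import Pool.Agent.Lib.H38H.O2

/-!
Chunk SLR5 (M). Consequences of the root condition.
-/

set_option autoImplicit false

namespace Pool.Agent.H38H

open Classical

variable {ι : Type} [Fintype ι] {L : ℕ}

/-- PROOF. Unfold `step`, `tgt`, cases of the kind. -/
theorem step_tgt (I : Inst ι L) {h : SB ι} {e : ι × Bool} {b : Bool} {a : Mv ι} (e1 : I.step h e b = some a) :
    I.tgt h e = some a.1.1 ∧ (a.2 = flip a.1 ∨ I.outer a.1 = some a.2) ∧ (b = false → I.outer a.1 = some a.2) := by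
  unfold Inst.step at e1
  unfold Inst.tgt
  cases hk : I.kind (ap h e).1 with
  | c =>
    rw [hk] at e1
    simp only at e1 ⊢
    rw [Option.bind_eq_some_iff] at e1
    obtain ⟨y, hy, e2⟩ := e1
    rw [hy]
    cases b with
    | true =>
      simp only [if_true, Option.some.injEq] at e2
      subst e2
      exact ⟨rfl, Or.inl rfl, fun h => absurd h (by decide)⟩
    | false =>
      simp only [Bool.false_eq_true, if_false] at e2
      rw [Option.map_eq_some_iff] at e2
      obtain ⟨x', hx', rfl⟩ := e2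
      exact ⟨rfl, Or.inr hx', fun _ => hx'⟩
  | d =>
    rw [hk] at e1
    simp only at e1 ⊢
    rw [Option.bind_eq_some_iff] at e1
    obtain ⟨l, hl, e2⟩ := e1
    rw [hl]
    rw [Option.map_eq_some_iff] at e2
    obtain ⟨x', hx', rfl⟩ := e2
    exact ⟨rfl, Or.inr hx', fun _ => hx'⟩
  | b =>
    rw [hk] at e1
    simp only at e1
    cases e1

/-- PROOF. Under RC the child `false :: l` exists (`rc.ok`): unfold `node`, `step_tgt`. -/
theorem rc_child (I : Inst ι L) {T : Finset (ι × Bool)} {r K0 : ℕ} {h : SB ι} (rc : I.RC h r K0 T)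
    {x : ι × Bool} (hx : I.Root T x) {l : List Bool} (hl : l.length < r) (b : Bool) :
    ∃ q a, I.node h x l = some q ∧ I.node h x (b :: l) = some a ∧ I.tgt h q.2 = some a.1.1 ∧
      I.tg h (x, l) = some a.1.1 := by
  have h1 := rc.ok x hx (b :: l) (by simp only [List.length_cons]; omega)
  obtain ⟨a, ha⟩ := Option.isSome_iff_exists.1 h1
  have ha' := ha
  rw [Inst.node, Option.bind_eq_some_iff] at ha'
  obtain ⟨q, hq, hstep⟩ := ha'
  have h2 := (step_tgt I hstep).1
  refine ⟨q, a, hq, ha, h2, ?_⟩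
  unfold Inst.tg
  simp only [hq, Option.bind_some]
  exact h2

theorem slr5_rcK (I : Inst ι L) {T : Finset (ι × Bool)} {r : ℕ} {h : SB ι} {p : ι} :
    p ∈ I.rcK T r h ↔ ∃ x l q, I.Root T x ∧ l.length < r ∧ I.node h x l = some q ∧
    (p = q.2.1 ∨ I.tgt h q.2 = some p) := by
  unfold Inst.rcK
  rw [Finset.mem_filter]
  exact and_iff_right (Finset.mem_univ _)

theorem slr5_rcA (I : Inst ι L) {T : Finset (ι × Bool)} {r : ℕ} {h : SB ι} {p : ι} :
    p ∈ I.rcA T r h ↔ ∃ x l q, I.Root T x ∧ l.length ≤ r ∧ I.node h x l = some q ∧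
    (p = q.2.1 ∨ p = q.1.1) := by
  unfold Inst.rcA
  rw [Finset.mem_filter]
  exact and_iff_right (Finset.mem_univ _)

theorem slr5_rcS (I : Inst ι L) {r : ℕ} {h : SB ι} {x : ι × Bool} {p : ι} :
    p ∈ I.rcS r h x ↔ ∃ l q, l ≠ [] ∧ l.length ≤ r ∧ I.node h x l = some q ∧
    (p = q.2.1 ∨ p = q.1.1) := by
  unfold Inst.rcS
  rw [Finset.mem_filter]
  exact and_iff_right (Finset.mem_univ _)

/-- PROOF. End slots are in `rcA`; a target slot is the slot of the target of the child: `rc_child`. -/
theorem rcK_sub' (I : Inst ι L) {K0 r : ℕ} {T : Finset (ι × Bool)} {h : SB ι} (rc : I.RC h r K0 T) :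
    I.rcK T r h ⊆ I.rcA T r h := by
  intro p hp
  rw [slr5_rcK] at hp
  obtain ⟨x, l, q, hx, hl, hq, h1 | h1⟩ := hp
  · exact (slr5_rcA I).2 ⟨x, l, q, hx, hl.le, hq, Or.inl h1⟩
  · obtain ⟨q', a, hq', ha, ht, -⟩ := rc_child I rc hx hl false
    rw [hq] at hq'
    cases hq'
    rw [h1] at ht
    exact (slr5_rcA I).2 ⟨x, false :: l, a, hx, by simp only [List.length_cons]; omega, ha,
      Or.inr (Option.some.inj ht)⟩

theorem rcS_sub' (I : Inst ι L) {r : ℕ} {T : Finset (ι × Bool)} {h : SB ι} {x : ι × Bool} (hx : I.Root T x) :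
    I.rcS r h x ⊆ I.rcA T r h := by
  intro p hp
  rw [slr5_rcS] at hp
  obtain ⟨l, q, -, hl, hq, h1⟩ := hp
  exact (slr5_rcA I).2 ⟨x, l, q, hx, hl, hq, h1⟩

/-- PROOF. `rc.ends` with the empty strings. -/
theorem root_ne' (I : Inst ι L) {T : Finset (ι × Bool)} {r K0 : ℕ} {h : SB ι} (rc : I.RC h r K0 T)
    {x y : ι × Bool} (hx : I.Root T x) (hy : I.Root T y) (hxy : x ≠ y) : x.1 ≠ y.1 := by
  intro h1
  exact hxy (rc.ends x y hx hy [] [] (Nat.zero_le _) (Nat.zero_le _) (x, x) (y, y) rfl rfl h1).1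

/-- PROOF. A slot of `rcS` is `q.2.1` or `q.1.1` for a node `q` of `(y, c :: m)`. `rc.ends` with `[]` and `c :: m`; `rc.mixed` with `[]` and `c :: m`. -/
theorem root_slot' (I : Inst ι L) {T : Finset (ι × Bool)} {r K0 : ℕ} {h : SB ι} (rc : I.RC h r K0 T)
    {x y : ι × Bool} (hx : I.Root T x) (hy : I.Root T y) : x.1 ∉ I.rcS r h y := by
  intro hp
  rw [slr5_rcS] at hp
  obtain ⟨l, q, hl0, hl, hq, h1 | h1⟩ := hp
  · exact hl0 (rc.ends x y hx hy [] l (Nat.zero_le _) hl (x, x) q rfl hq h1).2.symm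
  · cases l with
    | nil => exact hl0 rfl
    | cons c m =>
      have hm : m.length < r := by
        simp only [List.length_cons] at hl
        omega
      obtain ⟨-, -, b, hb⟩ := rc.mixed x y hx hy c [] m (Nat.zero_le _) hm (x, x) q rfl hq h1
      cases hb

/-- PROOF. `rc.ends`, `rc.mixed` (twice), `rc.targets`. -/
theorem rcS_disj' (I : Inst ι L) {T : Finset (ι × Bool)} {r K0 : ℕ} {h : SB ι} (rc : I.RC h r K0 T)
    {x y : ι × Bool} (hx : I.Root T x) (hy : I.Root T y) (hxy : x ≠ y) :
    Disjoint (I.rcS r h x) (I.rcS r h y) := by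
  rw [Finset.disjoint_left]
  intro p hp hp'
  rw [slr5_rcS] at hp hp'
  obtain ⟨l, q, hl0, hl, hq, h1⟩ := hp
  obtain ⟨l', q', hl0', hl', hq', h1'⟩ := hp'
  obtain ⟨b, m, rfl⟩ := List.exists_cons_of_ne_nil hl0
  obtain ⟨c, m', rfl⟩ := List.exists_cons_of_ne_nil hl0'
  have hm : m.length < r := by
    simp only [List.length_cons] at hl
    omega
  have hm' : m'.length < r := by
    simp only [List.length_cons] at hl'
    omega
  rcases h1 with h1 | h1 <;> rcases h1' with h1' | h1'
  · exact hxy (rc.ends x y hx hy _ _ hl hl' q q' hq hq' (h1.symm.trans h1')).1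
  · exact hxy (rc.mixed x y hx hy c _ m' hl hm' q q' hq hq' (h1.symm.trans h1')).1
  · exact hxy (rc.mixed y x hy hx b _ m hl' hm q' q hq' hq (h1'.symm.trans h1)).1.symm
  · exact hxy (rc.targets x y hx hy b c m m' hm hm' q q' hq hq' (h1.symm.trans h1')).1

/-- PROOF. If `q.2.1` is the slot of an end of a string shorter than `r`: `rc.ends`, the lengths differ. If it is the target of `(y, l')`, it is the target of the child `false :: l'` (`rc_child`), so `rc.mixed` gives `x = y`,
`q.2 = flip q.1` (and `l = l'`). But `I.outer q.1 = some q.2` (`step_tgt`, `b = false`). So `{q.1, flip q.1}` is closed under `FAdj`, a component with two positions, all with outer partners: `I.Tiny K0 q.1`, against `rc.noTiny`. -/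
theorem leaf_unk' (I : Inst ι L) {T : Finset (ι × Bool)} {r K0 : ℕ} {h : SB ι} (rc : I.RC h r K0 T) (hK0 : 1 ≤ K0)
    {x : ι × Bool} (hx : I.Root T x) {l : List Bool} (hl : l.length + 1 = r) {q : Mv ι}
    (hq : I.node h x (false :: l) = some q) : q.2.1 ∉ I.rcK T r h := by
  intro hp
  rw [slr5_rcK] at hp
  obtain ⟨y, l', q', hy, hl', hq', h1⟩ := hp
  have hlr : (false :: l).length ≤ r := by
    simp only [List.length_cons]
    omega
  rcases h1 with h1 | h1
  · have h2 := (rc.ends x y hx hy _ _ hlr hl'.le q q' hq hq' h1).2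
    rw [← h2] at hl'
    simp only [List.length_cons] at hl'
    omega
  · obtain ⟨q'', a, hq'', ha, ht, -⟩ := rc_child I rc hy hl' false
    rw [hq'] at hq''
    cases hq''
    rw [h1] at ht
    obtain ⟨-, h3, -⟩ := rc.mixed x y hx hy false _ l' hlr hl' q a hq ha (Option.some.inj ht)
    have hstep := hq
    rw [Inst.node, Option.bind_eq_some_iff] at hstep
    obtain ⟨q0, -, hstep⟩ := hstep
    have h4 := (step_tgt I hstep).2.2 rfl
    rw [h3] at h4
    have h5 := I.outer_symm _ _ h4
    have hcl : ∀ v ∈ ({q.1, flip q.1} : Finset (ι × Bool)), ∀ w, I.FAdj v w →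
        w ∈ ({q.1, flip q.1} : Finset (ι × Bool)) := by
      intro v hv w hw
      rw [Finset.mem_insert, Finset.mem_singleton] at hv ⊢
      rcases hv with rfl | rfl
      · rcases hw with hw | hw
        · exact Or.inr hw
        · rw [h4] at hw
          exact Or.inr (Option.some.inj hw).symm
      · rcases hw with hw | hw
        · rw [flip_flip] at hw
          exact Or.inl hw
        · rw [h5] at hw
          exact Or.inl (Option.some.inj hw).symm
    have hq1 : q.1 ∈ ({q.1, flip q.1} : Finset (ι × Bool)) := Finset.mem_insert_self _ _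
    have hall : ∀ v, I.SameF q.1 v → v ∈ ({q.1, flip q.1} : Finset (ι × Bool)) := by
      intro v hv
      unfold Inst.SameF at hv
      induction hv with
      | refl => exact hq1
      | tail _ h2 ih => exact hcl _ ih _ h2
    have hlr' : l.length < r := by omega
    refine (rc.noTiny x hx false l hlr' q hq).1 ⟨?_, ?_⟩
    · intro v hv
      have h6 := hall v hv
      rw [Finset.mem_insert, Finset.mem_singleton] at h6
      rcases h6 with rfl | rfl
      · rw [h4]
        exact Option.some_ne_none _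
      · rw [h5]
        exact Option.some_ne_none _
    · have h7 := o2_comp_le I hq1 hcl
      have h8 : ({q.1, flip q.1} : Finset (ι × Bool)).card ≤ 2 := Finset.card_le_two
      omega

end Pool.Agent.H38H
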