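import Pool.Agent.Lib.H38H.R.R2
import Pool.Agent.Lib.H38H.R.R5

/-!
Chunk SLR6 (M). Few slots of the root trees on a short component without roots.
-/

set_option autoImplicit false

namespace Pool.Agent.H38H

open Classical

variable {ι : Type} [Fintype ι] {L : ℕ}

/-- PROOF. Let `p ∈ rcA` with `SameF x (p, false)`, so `p = q.2.1` or `q.1.1` for the node `q` of `(x', l)`, `x'` a root. `l = []`: `q = (x', x')`, `p = x'.1`, so `SameF x x'` (`o1_slot`), against `hn`. `l = b :: m`: `q.1` and `q.2` are on the same
component (`step_tgt`: `q.2 = flip q.1` or the outer partner), the component of `x`; it is short, so `q.1.1 ∈ I.short ℓ` (`short_iff`), and the index `s = (x', m)` is restricted (`rc_child`: its target slot is `q.1.1`). Every restricted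
index `s` gives at most three slots: its target slot and the slots of the ends of its two children (the target slots of both children are the target slot of `s`). So the set is contained in the union over the finite set of restricted indices
(`restr_finite'`) of sets with at most three elements. -/
theorem rc_short_card' (I : Inst ι L) {T : Finset (ι × Bool)} {r K0 ℓ ρ : ℕ} {h : SB ι} (rc : I.RC h r K0 T)
    (hρ : {s | I.Restr T r ℓ h s}.ncard ≤ ρ) {x : ι × Bool} (hx : x.1 ∈ I.short ℓ)
    (hn : ∀ y, I.SameF x y → ¬ I.Root T y) :
    ((I.rcA T r h).filter (fun p => I.SameF x (p, false))).card ≤ 3 * ρ := by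
  have hfin := restr_finite' I T r ℓ h
  set Fs : Ix ι → Finset ι := fun s => (I.tg h s).toFinset ∪
    (((I.node h s.1 (true :: s.2)).map (fun q => q.2.1)).toFinset ∪
      ((I.node h s.1 (false :: s.2)).map (fun q => q.2.1)).toFinset) with hFs
  have hc : ∀ s, (Fs s).card ≤ 3 := by
    intro s
    have h1 := Finset.card_union_le (I.tg h s).toFinset
      (((I.node h s.1 (true :: s.2)).map (fun q => q.2.1)).toFinset ∪
      ((I.node h s.1 (false :: s.2)).map (fun q => q.2.1)).toFinset)
    have h2 := Finset.card_union_le ((I.node h s.1 (true :: s.2)).map (fun q => q.2.1)).toFinset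
      ((I.node h s.1 (false :: s.2)).map (fun q => q.2.1)).toFinset
    have h3 : ∀ o : Option ι, o.toFinset.card ≤ 1 := by
      intro o
      cases o <;> simp
    have h4 := h3 (I.tg h s)
    have h5 := h3 ((I.node h s.1 (true :: s.2)).map (fun q => q.2.1))
    have h6 := h3 ((I.node h s.1 (false :: s.2)).map (fun q => q.2.1))
    have h7 : Fs s = (I.tg h s).toFinset ∪
      (((I.node h s.1 (true :: s.2)).map (fun q => q.2.1)).toFinset ∪
      ((I.node h s.1 (false :: s.2)).map (fun q => q.2.1)).toFinset) := rfl
    rw [h7]
    omega
  have hsame : ∀ a b : ι × Bool, a.1 = b.1 → I.SameF a b := by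
    rintro ⟨p, i⟩ ⟨p', j⟩ hp
    simp only at hp
    subst hp
    exact o1_slot I p i j
  have hsub : (I.rcA T r h).filter (fun p => I.SameF x (p, false)) ⊆ hfin.toFinset.biUnion Fs := by
    intro p hp
    rw [Finset.mem_filter, slr5_rcA] at hp
    obtain ⟨⟨x', l, q, hx', hl, hq, hpq⟩, hsp⟩ := hp
    cases l with
    | nil =>
      exfalso
      rw [Inst.node, Option.some.injEq] at hq
      subst hq
      simp only [or_self] at hpq
      exact hn x' (hsp.trans (hsame _ _ hpq)) hx'
    | cons b m =>
      have hm : m.length < r := by
        simp only [List.length_cons] at hl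
        omega
      obtain ⟨q0, a, hq0, ha, ht, htg⟩ := rc_child I rc hx' hm b
      rw [hq] at ha
      cases ha
      have hstep := hq
      rw [Inst.node, Option.bind_eq_some_iff] at hstep
      obtain ⟨q1, -, hstep⟩ := hstep
      have h12 : I.SameF q.1 q.2 := by
        rcases (step_tgt I hstep).2.1 with h1 | h1
        · rw [h1]
          exact Relation.ReflTransGen.single (Or.inl rfl)
        · exact Relation.ReflTransGen.single (Or.inr h1)
      have hxq : I.SameF x q.1 := by
        rcases hpq with h1 | h1
        · exact (hsp.trans (hsame _ _ h1)).trans (SameF_symm I h12)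
        · exact hsp.trans (hsame _ _ h1)
      have hqs : q.1.1 ∈ I.short ℓ := by
        rw [short_iff I ℓ q.1.1 q.1.2]
        rw [short_iff I ℓ x.1 x.2] at hx
        have h1 : ∀ y, I.SameF (q.1.1, q.1.2) y ↔ I.SameF (x.1, x.2) y := fun y =>
          ⟨fun h => hxq.trans h, fun h => (SameF_symm I hxq).trans h⟩
        simp only [h1]
        exact hx
      rw [Finset.mem_biUnion]
      refine ⟨(x', m), ?_, ?_⟩
      · rw [Set.Finite.mem_toFinset]
        exact ⟨hx', hm, q.1.1, htg, Or.inl hqs⟩
      · have h7 : Fs (x', m) = (I.tg h (x', m)).toFinset ∪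
          (((I.node h x' (true :: m)).map (fun q => q.2.1)).toFinset ∪
          ((I.node h x' (false :: m)).map (fun q => q.2.1)).toFinset) := rfl
        rw [h7, Finset.mem_union, Finset.mem_union, Option.mem_toFinset, Option.mem_toFinset,
          Option.mem_toFinset]
        rcases hpq with h1 | h1
        · right
          cases b with
          | true =>
            left
            rw [hq, h1]
            rfl
          | false =>
            right
            rw [hq, h1]
            rfl
        · left
          rw [htg, h1]
          rfl
  refine (Finset.card_le_card hsub).trans (Finset.card_biUnion_le.trans ?_)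
  refine (Finset.sum_le_sum fun s _ => hc s).trans ?_
  rw [Finset.sum_const, smul_eq_mul, mul_comm]
  refine Nat.mul_le_mul_left 3 ?_
  rw [← Set.ncard_eq_toFinset_card _ hfin]
  exact hρ

end Pool.Agent.H38H
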