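import Pool.Agent.Lib.H38H.R.R0
import Pool.Agent.Lib.H38H.O2

/-!
Chunk SLR7 (S/M). An outer edge avoiding a set.
-/

set_option autoImplicit false

namespace Pool.Agent.H38H

open Classical

variable {ι : Type} [Fintype ι] {L : ℕ}

/-- PROOF. Let `C` be the finite set of positions on the component. At most `2 b` of them have their slot in `B` (`y.1 ∈ B.filter ..`, two positions per slot), and at most `2 b` have an outer partner with slot in `B` (`y ↦ (I.outer y).getD y` is injective on `C`
and maps `C` to `C`). So there is `y ∈ C` with `y.1 ∉ B`, `I.outer y = some z`, `z.1 ∉ B`. If `y.1 = z.1` then `z = flip y` (`eq_or_flip`, `I.outer_ne`), `{y, flip y}` is closed under `FAdj` and the component has at most `2` elements, against `hc`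
(as in `o2_comp_le`, file O2). -/
theorem place_exists' (I : Inst ι L) {x : ι × Bool} (B : Finset ι) {b : ℕ}
    (hB : (B.filter (fun p => I.SameF x (p, false))).card ≤ b) (ho : ∀ y, I.SameF x y → I.outer y ≠ none)
    (hc : 4 * b + 2 < Nat.card {y // I.SameF x y}) :
    ∃ y z, I.SameF x y ∧ I.outer y = some z ∧ y.1 ∉ B ∧ z.1 ∉ B ∧ y.1 ≠ z.1 := by
  set C : Finset (ι × Bool) := Finset.univ.filter (fun y => I.SameF x y) with hC
  set Q : Finset (ι × Bool) := (B.filter (fun p => I.SameF x (p, false))) ×ˢ Finset.univ with hQ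
  have hQc : Q.card ≤ 2 * b := by
    rw [hQ, Finset.card_product, Finset.card_univ, Fintype.card_bool]
    omega
  have hmemQ : ∀ y : ι × Bool, I.SameF x y → y.1 ∈ B → y ∈ Q := by
    intro y hy hyB
    rw [hQ, Finset.mem_product, Finset.mem_filter]
    exact ⟨⟨hyB, hy.trans (o1_slot I y.1 y.2 false)⟩, Finset.mem_univ _⟩
  have hCc : C.card = Nat.card {y // I.SameF x y} := o2_card_comp I x
  have h1 : (C.filter (fun y => y.1 ∈ B)).card ≤ 2 * b := by
    refine le_trans (Finset.card_le_card ?_) hQc
    intro y hy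
    obtain ⟨hy1, hy2⟩ := Finset.mem_filter.1 hy
    exact hmemQ y (Finset.mem_filter.1 hy1).2 hy2
  have h2 : (C.filter (fun y => ∃ z, I.outer y = some z ∧ z.1 ∈ B)).card ≤ 2 * b := by
    refine le_trans (Finset.card_le_card_of_injOn (fun y => (I.outer y).getD y) ?_ ?_) hQc
    · intro y hy
      obtain ⟨hy1, z, hz, hzB⟩ := Finset.mem_filter.1 (Finset.mem_coe.1 hy)
      simp only [hz, Option.getD_some]
      exact Finset.mem_coe.2 (hmemQ z (((Finset.mem_filter.1 hy1).2).tail (Or.inr hz)) hzB)
    · intro y hy y' hy' he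
      obtain ⟨-, z, hz, -⟩ := Finset.mem_filter.1 (Finset.mem_coe.1 hy)
      obtain ⟨-, z', hz', -⟩ := Finset.mem_filter.1 (Finset.mem_coe.1 hy')
      simp only [hz, hz', Option.getD_some] at he
      have h3 := I.outer_symm y z hz
      have h4 := I.outer_symm y' z' hz'
      rw [he, h4] at h3
      exact (Option.some.inj h3).symm
  obtain ⟨y, hyC, hy⟩ : ∃ y ∈ C, y ∉ C.filter (fun y => y.1 ∈ B) ∪
      C.filter (fun y => ∃ z, I.outer y = some z ∧ z.1 ∈ B) := by
    by_contra hcon
    push Not at hcon
    have h3 := Finset.card_le_card (s := C) hcon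
    have h4 := Finset.card_union_le (C.filter (fun y => y.1 ∈ B))
      (C.filter (fun y => ∃ z, I.outer y = some z ∧ z.1 ∈ B))
    omega
  rw [Finset.mem_union, not_or] at hy
  have hxy : I.SameF x y := (Finset.mem_filter.1 hyC).2
  obtain ⟨z, hz⟩ := Option.ne_none_iff_exists'.1 (ho y hxy)
  have hyB : y.1 ∉ B := fun h => hy.1 (Finset.mem_filter.2 ⟨hyC, h⟩)
  have hzB : z.1 ∉ B := fun h => hy.2 (Finset.mem_filter.2 ⟨hyC, z, hz, h⟩)
  refine ⟨y, z, hxy, hz, hyB, hzB, ?_⟩
  intro he
  rcases eq_or_flip he.symm with h3 | h3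
  · rw [h3] at hz
    exact I.outer_ne y hz
  · rw [h3] at hz
    have hz' := I.outer_symm _ _ hz
    have h4 : Nat.card {v // I.SameF y v} ≤ ({y, flip y} : Finset (ι × Bool)).card := by
      refine o2_comp_le I (Finset.mem_insert_self _ _) ?_
      intro v hv w hw
      rw [Finset.mem_insert, Finset.mem_singleton] at hv ⊢
      rcases hv with rfl | rfl
      · rcases hw with hw | hw
        · exact Or.inr hw
        · rw [hz] at hw
          exact Or.inr (Option.some.inj hw).symm
      · rcases hw with hw | hw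
        · rw [flip_flip] at hw
          exact Or.inl hw
        · rw [hz'] at hw
          exact Or.inl (Option.some.inj hw).symm
    have h5 : ({y, flip y} : Finset (ι × Bool)).card ≤ 2 := Finset.card_le_two
    have h6 : ∀ v, I.SameF y v ↔ I.SameF x v := fun v =>
      ⟨fun h => hxy.trans h, fun h => (SameF_symm I hxy).trans h⟩
    simp only [h6] at h4
    omega

end Pool.Agent.H38H
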