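import Pool.Agent.Lib.H38H.W0
import Pool.Agent.Lib.H38H.O2

/-!
Module SL, part R (root trees): definitions. An INDEX is a pair `s = (x, l)` (root, string of bits, last step first).
`tg h s` is the target slot of the node of `s` (file W0).
-/

set_option autoImplicit false

namespace Pool.Agent.H38H

open Classical

variable {ι : Type} [Fintype ι] {L : ℕ}

/-- indices -/
abbrev Ix (ι : Type) : Type := (ι × Bool) × List Bool

/-- slots of the ends and targets of the nodes of the indices with property `P` -/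
noncomputable def Inst.iK (I : Inst ι L) (P : Ix ι → Prop) (h : SB ι) : Finset ι :=
  Finset.univ.filter (fun p => ∃ s q, P s ∧ I.node h s.1 s.2 = some q ∧ (p = q.2.1 ∨ I.tgt h q.2 = some p))

/-- closed under parents -/
def PC {ι : Type} (P : Ix ι → Prop) : Prop := ∀ x b l, P (x, b :: l) → P (x, l)

/-- all strings shorter than `r` -/
def strs : ℕ → Finset (List Bool)
  | 0 => ∅
  | r + 1 => insert [] ((Finset.univ ×ˢ strs r).image (fun z : Bool × List Bool => z.1 :: z.2))

/-- lists of indices, latest first, parents before children -/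
def GdL {ι : Type} : List (Ix ι) → Prop
  | [] => True
  | s :: A => GdL A ∧ s ∉ A ∧ ∀ b l, s.2 = b :: l → (s.1, l) ∈ A

/-- dangerous slots: short, or near a slot of `K` or `Rt` -/
noncomputable def Inst.dgr (I : Inst ι L) (Rt : Finset ι) (ℓ : ℕ) (K : Finset ι) : Finset ι :=
  I.short ℓ ∪ (K ∪ Rt).biUnion (I.ball (10 * ℓ + 4))

/-- the index `s` is flagged when the indices of `A` are explored: its target slot is new and dangerous -/
def Inst.flag (I : Inst ι L) (Rt : Finset ι) (ℓ : ℕ) (A : List (Ix ι)) (h : SB ι) (s : Ix ι) : Prop :=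
  ∃ q p, I.node h s.1 s.2 = some q ∧ I.tgt h q.2 = some p ∧
    p ∉ insert q.2.1 (I.iK (fun s => s ∈ A) h) ∧ p ∈ I.dgr Rt ℓ (insert q.2.1 (I.iK (fun s => s ∈ A) h))

/-- number of flagged indices of a list -/
noncomputable def Inst.nflag (I : Inst ι L) (Rt : Finset ι) (ℓ : ℕ) (h : SB ι) : List (Ix ι) → ℕ
  | [] => 0
  | s :: A => Inst.nflag I Rt ℓ h A + if I.flag Rt ℓ A h s then 1 else 0

/-- slots of the roots -/
noncomputable def Inst.rts (I : Inst ι L) (T : Finset (ι × Bool)) : Finset ι :=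
  (Finset.univ.filter (fun x => I.Root T x)).image Prod.fst

theorem mem_iK (I : Inst ι L) {P : Ix ι → Prop} {h : SB ι} {p : ι} :
    p ∈ I.iK P h ↔ ∃ s q, P s ∧ I.node h s.1 s.2 = some q ∧ (p = q.2.1 ∨ I.tgt h q.2 = some p) := by
  simp [Inst.iK]

theorem rcK_eq (I : Inst ι L) (T : Finset (ι × Bool)) (r : ℕ) (h : SB ι) :
    I.rcK T r h = I.iK (fun s => I.Root T s.1 ∧ s.2.length < r) h := by
  ext p
  rw [mem_iK]
  unfold Inst.rcK
  rw [Finset.mem_filter]
  constructor
  · rintro ⟨-, x, l, q, h1, h2, h3, h4⟩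
    exact ⟨(x, l), q, ⟨h1, h2⟩, h3, h4⟩
  · rintro ⟨⟨x, l⟩, q, ⟨h1, h2⟩, h3, h4⟩
    exact ⟨Finset.mem_univ _, x, l, q, h1, h2, h3, h4⟩

theorem pc_root (I : Inst ι L) (T : Finset (ι × Bool)) (r : ℕ) :
    PC (fun s : Ix ι => I.Root T s.1 ∧ s.2.length < r) := by
  rintro x b l ⟨h1, h2⟩
  refine ⟨h1, ?_⟩
  have h3 : l.length + 1 < r := h2
  show l.length < r
  omega

end Pool.Agent.H38H
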