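import Pool.Agent.Lib.H38H.R.R0

/-!
Chunk SLR1 (M). Nodes are determined by the slots of the ends and targets of their ancestors.
-/

set_option autoImplicit false

namespace Pool.Agent.H38H

open Classical

variable {ι : Type} [Fintype ι] {L : ℕ}

/-- the position of the partner is the same if its slot is known -/
theorem slr1_pa {K : Finset ι} {h h' : SB ι} (hh : h' ∈ cyl K h) {y : ι × Bool} (hy : (pa h y).1 ∈ K) :
    pa h' y = pa h y := by
  apply pa_congr hh
  rw [mem_lk, ← pa_fst]
  exact hy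

/-- PROOF. `ap h' e = ap h e` (`ap_congr`). Cases of `I.kind (ap h e).1`: for `c` and `I.Mc (ap h e) = some y` the target slot is `(pa h y).1 ∈ K`, so `y.1 ∈ lk K h` (`mem_lk`, `pa_fst`), `pa h' y = pa h y` (`pa_congr`).
For `d` and `I.Md .. = some l` the target is `h.1.symm l = (pa h (l, false)).1` (`pa_fst`), the same argument. -/
theorem tgt_congr (I : Inst ι L) {K : Finset ι} {h h' : SB ι} (hh : h' ∈ cyl K h) {e : ι × Bool}
    (he : e.1 ∈ K) (ht : ∀ p, I.tgt h e = some p → p ∈ K) : I.tgt h' e = I.tgt h e := by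
  have hap := ap_congr hh he
  unfold Inst.tgt at ht ⊢
  rw [hap]
  cases hk : I.kind (ap h e).1 with
  | b => rfl
  | c =>
    simp only [hk] at ht ⊢
    cases hM : I.Mc (ap h e) with
    | none => rfl
    | some y =>
      rw [hM] at ht
      have h1 := slr1_pa hh (ht _ rfl)
      simp only [Option.map_some]
      rw [h1]
  | d =>
    simp only [hk] at ht ⊢
    cases hM : I.Md (ap h e).1 with
    | none => rfl
    | some l =>
      rw [hM] at ht
      have h1 := slr1_pa (y := (l, false)) hh (ht _ rfl)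
      simp only [Option.map_some]
      exact congrArg (fun z : ι × Bool => some z.1) h1

/-- PROOF. The same: `step` only uses `ap h e`, and `pa h y` resp. `pa h (l, b)`, whose slot is the target slot. -/
theorem step_congr (I : Inst ι L) {K : Finset ι} {h h' : SB ι} (hh : h' ∈ cyl K h) {e : ι × Bool}
    (he : e.1 ∈ K) (ht : ∀ p, I.tgt h e = some p → p ∈ K) (b : Bool) : I.step h' e b = I.step h e b := by
  have hap := ap_congr hh he
  unfold Inst.tgt at ht
  unfold Inst.step
  rw [hap]
  cases hk : I.kind (ap h e).1 with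
  | b => rfl
  | c =>
    simp only [hk] at ht ⊢
    cases hM : I.Mc (ap h e) with
    | none => rfl
    | some y =>
      rw [hM] at ht
      have h1 := slr1_pa hh (ht _ rfl)
      simp only [Option.bind_some]
      rw [h1]
  | d =>
    simp only [hk] at ht ⊢
    cases hM : I.Md (ap h e).1 with
    | none => rfl
    | some l =>
      rw [hM] at ht
      have h1 := slr1_pa (y := (l, b)) hh (ht _ rfl)
      simp only [Option.bind_some]
      rw [h1]

/-- PROOF. Induction on `l`. `[]`: both are `some (x, x)`. `b :: m`: `P (x, m)`, and for `m = b' :: m'` also `P (x, m')` by `hP`, so the induction hypothesis gives `node h' x m = node h x m`. If it is `some q` then `q.2.1 ∈ iK`, and the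
target slot of `q.2` (if any) is in `iK` (`mem_iK`): `step_congr`. -/
theorem iK_node (I : Inst ι L) {P : Ix ι → Prop} (hP : PC P) {h h' : SB ι} (hh : h' ∈ cyl (I.iK P h) h)
    (x : ι × Bool) (l : List Bool) (hl : ∀ b m, l = b :: m → P (x, m)) : I.node h' x l = I.node h x l := by
  induction l with
  | nil => rfl
  | cons b m ih =>
    have h1 : P (x, m) := hl b m rfl
    have h2 := ih (fun b' m' e => hP x b' m' (e ▸ h1))
    show (I.node h' x m).bind (fun p => I.step h' p.2 b) = (I.node h x m).bind (fun p => I.step h p.2 b)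
    rw [h2]
    cases hq : I.node h x m with
    | none => rfl
    | some q =>
      exact step_congr I hh (mem_iK I |>.2 ⟨(x, m), q, h1, hq, Or.inl rfl⟩)
        (fun p hp => mem_iK I |>.2 ⟨(x, m), q, h1, hq, Or.inr hp⟩) b

theorem slr1_node (I : Inst ι L) {P : Ix ι → Prop} (hP : PC P) {h h' : SB ι} (hh : h' ∈ cyl (I.iK P h) h)
    {s : Ix ι} (hs : P s) : I.node h' s.1 s.2 = I.node h s.1 s.2 := by
  apply iK_node I hP hh
  intro b m e
  apply hP s.1 b m
  rw [← e]
  exact hs

/-- PROOF. `iK_node` (for `l = b :: m` the parent has `P` by `hP`), `tgt_congr`. -/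
theorem iK_tg (I : Inst ι L) {P : Ix ι → Prop} (hP : PC P) {h h' : SB ι} (hh : h' ∈ cyl (I.iK P h) h)
    {s : Ix ι} (hs : P s) : I.tg h' s = I.tg h s := by
  unfold Inst.tg
  rw [slr1_node I hP hh hs]
  cases hq : I.node h s.1 s.2 with
  | none => rfl
  | some q =>
    exact tgt_congr I hh (mem_iK I |>.2 ⟨s, q, hs, hq, Or.inl rfl⟩)
      (fun p hp => mem_iK I |>.2 ⟨s, q, hs, hq, Or.inr hp⟩)

/-- PROOF. `mem_iK`, `iK_node`, and `iK_tg` (or `tgt_congr`) for the targets. -/
theorem iK_congr (I : Inst ι L) {P : Ix ι → Prop} (hP : PC P) {h h' : SB ι} (hh : h' ∈ cyl (I.iK P h) h) :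
    I.iK P h' = I.iK P h := by
  have key : ∀ s q, P s → I.node h s.1 s.2 = some q → I.tgt h' q.2 = I.tgt h q.2 := by
    intro s q hs hq
    exact tgt_congr I hh (mem_iK I |>.2 ⟨s, q, hs, hq, Or.inl rfl⟩)
      (fun p hp => mem_iK I |>.2 ⟨s, q, hs, hq, Or.inr hp⟩)
  ext p
  rw [mem_iK, mem_iK]
  constructor
  · rintro ⟨s, q, hs, hq, hp⟩
    rw [slr1_node I hP hh hs] at hq
    rw [key s q hs hq] at hp
    exact ⟨s, q, hs, hq, hp⟩
  · rintro ⟨s, q, hs, hq, hp⟩
    rw [← key s q hs hq] at hp
    rw [← slr1_node I hP hh hs] at hq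
    exact ⟨s, q, hs, hq, hp⟩

/-- PROOF. `iK_congr`. -/
theorem iK_stop (I : Inst ι L) {P : Ix ι → Prop} (hP : PC P) (h : SB ι) : Stop ∅ h (I.iK P) :=
  ⟨fun _ _ => Finset.empty_subset _, fun _ _ _ hh'' => iK_congr I hP hh''⟩

theorem iK_mono (I : Inst ι L) {P P' : Ix ι → Prop} (hP : ∀ s, P s → P' s) (h : SB ι) :
    I.iK P h ⊆ I.iK P' h := by
  intro p hp
  rw [mem_iK] at hp ⊢
  obtain ⟨s, q, hs, hq, h1⟩ := hp
  exact ⟨s, q, hP s hs, hq, h1⟩

end Pool.Agent.H38H
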