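import Pool.Agent.Lib.H38H.R.R2

/-!
Chunk SLR11 (M). A list of all indices, parents before children; the flagged indices.
-/

set_option autoImplicit false

namespace Pool.Agent.H38H

open Classical

variable {ι : Type} [Fintype ι] {L : ℕ}

theorem GdL.nodup {A : List (Ix ι)} (g : GdL A) : A.Nodup := by
  induction A with
  | nil => exact List.nodup_nil
  | cons s A ih => exact List.nodup_cons.2 ⟨g.2.1, ih g.1⟩

/-- PROOF. Induction on `B`. -/
theorem GdL.append {A B : List (Ix ι)} (g : GdL A) (hB : B.Nodup) (h1 : ∀ s ∈ B, s ∉ A)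
    (h2 : ∀ s ∈ B, ∀ b l, s.2 = b :: l → (s.1, l) ∈ A) : GdL (B ++ A) := by
  induction B with
  | nil => exact g
  | cons s B ih =>
    obtain ⟨h3, h4⟩ := List.nodup_cons.1 hB
    refine ⟨ih h4 (fun t ht => h1 t (List.mem_cons_of_mem _ ht)) (fun t ht => h2 t (List.mem_cons_of_mem _ ht)), ?_, ?_⟩
    · intro h5
      rcases List.mem_append.1 h5 with h5 | h5
      · exact h3 h5
      · exact h1 s List.mem_cons_self h5
    · intro b l hbl
      exact List.mem_append.2 (Or.inr (h2 s List.mem_cons_self b l hbl))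

/-- PROOF. Induction on `r`: `r = 0`: `[]`. `r + 1`: `B ++ A` with `A` for `r` and `B = (R ×ˢ (strs (r + 1)).filter (length = r)).toList` (`GdL.append`). Length: `A` is without repetitions and `A.toFinset = R ×ˢ strs r` (`card_strs`). -/
theorem exists_list (R : Finset (ι × Bool)) (r : ℕ) : ∃ A : List (Ix ι), GdL A ∧
    (∀ s, s ∈ A ↔ s.1 ∈ R ∧ s.2.length < r) ∧ A.length ≤ R.card * 2 ^ r := by
  have hmain : ∃ A : List (Ix ι), GdL A ∧ (∀ s, s ∈ A ↔ s.1 ∈ R ∧ s.2.length < r) := by
    induction r with
    | zero => exact ⟨[], trivial, fun s => by simp⟩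
    | succ r ih =>
      obtain ⟨A, gA, hA⟩ := ih
      have hB : ∀ s, s ∈ (R ×ˢ ((strs (r + 1)).filter (fun l => l.length = r))).toList ↔ s.1 ∈ R ∧ s.2.length = r := by
        intro s
        rw [Finset.mem_toList, Finset.mem_product, Finset.mem_filter, mem_strs]
        constructor
        · rintro ⟨h1, _, h2⟩
          exact ⟨h1, h2⟩
        · rintro ⟨h1, h2⟩
          exact ⟨h1, by omega, h2⟩
      refine ⟨(R ×ˢ ((strs (r + 1)).filter (fun l => l.length = r))).toList ++ A,
        gA.append (Finset.nodup_toList _) ?_ ?_, ?_⟩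
      · intro s hs hs'
        have h1 := ((hB s).1 hs).2
        have h2 := ((hA s).1 hs').2
        omega
      · intro s hs b l hbl
        obtain ⟨h1, h2⟩ := (hB s).1 hs
        rw [hbl, List.length_cons] at h2
        rw [hA]
        refine ⟨h1, ?_⟩
        show l.length < r
        omega
      · intro s
        rw [List.mem_append, hB, hA]
        constructor
        · rintro (⟨h1, h2⟩ | ⟨h1, h2⟩)
          · exact ⟨h1, by omega⟩
          · exact ⟨h1, by omega⟩
        · rintro ⟨h1, h2⟩
          by_cases h3 : s.2.length = r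
          · exact Or.inl ⟨h1, h3⟩
          · exact Or.inr ⟨h1, by omega⟩
  obtain ⟨A, gA, hA⟩ := hmain
  refine ⟨A, gA, hA, ?_⟩
  have h1 : A.toFinset = R ×ˢ strs r := by
    ext s
    rw [List.mem_toFinset, hA, Finset.mem_product, mem_strs]
  have h2 : A.toFinset.card = A.length := List.toFinset_card_of_nodup gA.nodup
  rw [← h2, h1, Finset.card_product]
  have h3 := card_strs r
  exact Nat.mul_le_mul_left _ (by omega)

/-- PROOF. Induction on `A`: `(s :: A') <:+ (a :: A)` iff `s :: A' = a :: A` or `(s :: A') <:+ A` (`List.suffix_cons_iff`). So the set for `a :: A` is contained in the set for `A` plus (if `a` is flagged) the element `a`. -/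
theorem flagged_card (I : Inst ι L) (Rt : Finset ι) (ℓ : ℕ) (h : SB ι) (A : List (Ix ι)) :
    {s | ∃ A', (s :: A') <:+ A ∧ I.flag Rt ℓ A' h s}.ncard ≤ I.nflag Rt ℓ h A ∧
      {s | ∃ A', (s :: A') <:+ A ∧ I.flag Rt ℓ A' h s}.Finite := by
  induction A with
  | nil =>
    have h1 : {s | ∃ A', (s :: A') <:+ ([] : List (Ix ι)) ∧ I.flag Rt ℓ A' h s} = ∅ := by
      ext s
      simp
    rw [h1]
    simp
  | cons a A ih =>
    obtain ⟨ih1, ih2⟩ := ih
    by_cases hf : I.flag Rt ℓ A h a
    · have h1 : {s | ∃ A', (s :: A') <:+ (a :: A) ∧ I.flag Rt ℓ A' h s} ⊆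
          insert a {s | ∃ A', (s :: A') <:+ A ∧ I.flag Rt ℓ A' h s} := by
        rintro s ⟨A', h2, h3⟩
        rcases List.suffix_cons_iff.1 h2 with h4 | h4
        · left
          exact (List.cons.inj h4).1
        · right
          exact ⟨A', h4, h3⟩
      have h2 := ih2.insert a
      refine ⟨?_, h2.subset h1⟩
      refine (Set.ncard_le_ncard h1 h2).trans ((Set.ncard_insert_le _ _).trans ?_)
      simp only [Inst.nflag, if_pos hf]
      omega
    · have h1 : {s | ∃ A', (s :: A') <:+ (a :: A) ∧ I.flag Rt ℓ A' h s} ⊆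
          {s | ∃ A', (s :: A') <:+ A ∧ I.flag Rt ℓ A' h s} := by
        rintro s ⟨A', h2, h3⟩
        rcases List.suffix_cons_iff.1 h2 with h4 | h4
        · obtain ⟨h5, h6⟩ := List.cons.inj h4
          rw [h5, h6] at h3
          exact absurd h3 hf
        · exact ⟨A', h4, h3⟩
      refine ⟨?_, ih2.subset h1⟩
      refine (Set.ncard_le_ncard h1 ih2).trans ?_
      simp only [Inst.nflag]
      omega

/-- PROOF. Induction on `A`: if `s` is the head then `s' ∈ A`; same if `s'` is the head; otherwise induction. -/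
theorem before_total {A : List (Ix ι)} {s s' : Ix ι} (hs : s ∈ A) (hs' : s' ∈ A) (hne : s ≠ s') :
    (∃ A', (s :: A') <:+ A ∧ s' ∈ A') ∨ (∃ A', (s' :: A') <:+ A ∧ s ∈ A') := by
  induction A with
  | nil => simp at hs
  | cons a A ih =>
    rcases List.mem_cons.1 hs with h1 | h1
    · rcases List.mem_cons.1 hs' with h2 | h2
      · exact absurd (h1.trans h2.symm) hne
      · left
        exact ⟨A, by rw [h1], h2⟩
    · rcases List.mem_cons.1 hs' with h2 | h2
      · right
        exact ⟨A, by rw [h2], h1⟩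
      · rcases ih h1 h2 with ⟨A', h3, h4⟩ | ⟨A', h3, h4⟩
        · exact Or.inl ⟨A', h3.trans (List.suffix_cons _ _), h4⟩
        · exact Or.inr ⟨A', h3.trans (List.suffix_cons _ _), h4⟩

/-- PROOF. Induction on the list: a suffix of a good list is good. -/
theorem GdL.suffix {A B : List (Ix ι)} (g : GdL A) (hB : B <:+ A) : GdL B := by
  induction A with
  | nil =>
    rw [List.suffix_nil] at hB
    rw [hB]
    exact trivial
  | cons a A ih =>
    rcases List.suffix_cons_iff.1 hB with h1 | h1
    · rw [h1]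
      exact g
    · exact ih g.1 h1

end Pool.Agent.H38H
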