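import Pool.Agent.Lib.H38H.R.R0

/-!
Chunk SLR2 (M). Strings and cardinalities.
-/

set_option autoImplicit false

namespace Pool.Agent.H38H

open Classical

variable {ι : Type} [Fintype ι] {L : ℕ}

/-- PROOF. Induction on `r`, cases of `l`. -/
theorem mem_strs {r : ℕ} {l : List Bool} : l ∈ strs r ↔ l.length < r := by
  induction r generalizing l with
  | zero => simp [strs]
  | succ r ih =>
    unfold strs
    rw [Finset.mem_insert, Finset.mem_image]
    cases l with
    | nil => simp
    | cons b l =>
      constructor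
      · rintro (h1 | ⟨z, hz, hz2⟩)
        · exact absurd h1 (by simp)
        · rw [Finset.mem_product] at hz
          have h3 := ih.1 hz.2
          have h4 : z.2 = l := (List.cons.inj hz2).2
          rw [h4] at h3
          simpa using h3
      · intro h1
        right
        refine ⟨(b, l), ?_, rfl⟩
        rw [Finset.mem_product]
        exact ⟨Finset.mem_univ _, ih.2 (by simpa using h1)⟩

/-- PROOF. Induction on `r`: `card_insert_le`, `card_image_le`, `card_product`: `1 + 2 c` with `c + 1 ≤ 2 ^ r`. -/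
theorem card_strs (r : ℕ) : (strs r).card + 1 ≤ 2 ^ r := by
  induction r with
  | zero => simp [strs]
  | succ r ih =>
    have h1 : (strs (r + 1)).card ≤ 2 * (strs r).card + 1 := by
      show (insert [] ((Finset.univ ×ˢ strs r).image (fun z : Bool × List Bool => z.1 :: z.2))).card ≤ _
      refine (Finset.card_insert_le _ _).trans ?_
      have h2 := Finset.card_image_le (s := (Finset.univ : Finset Bool) ×ˢ strs r)
        (f := fun z : Bool × List Bool => z.1 :: z.2)
      rw [Finset.card_product] at h2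
      have h3 : (Finset.univ : Finset Bool).card = 2 := rfl
      rw [h3] at h2
      omega
    rw [pow_succ]
    omega

theorem slr2_two {β : Type} (o : Option β) (a : β → ι) (b : β → Option ι) :
    (Finset.univ.filter (fun p : ι => ∃ q, o = some q ∧ (p = a q ∨ b q = some p))).card ≤ 2 := by
  cases o with
  | none => simp
  | some q =>
    have h1 : (Finset.univ.filter (fun p : ι => ∃ q', some q = some q' ∧ (p = a q' ∨ b q' = some p))) ⊆
        {a q} ∪ (b q).toFinset := by
      intro p hp
      rw [Finset.mem_filter] at hp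
      obtain ⟨-, q', h2, h3⟩ := hp
      have h4 : q = q' := Option.some.inj h2
      subst h4
      rw [Finset.mem_union, Finset.mem_singleton, Option.mem_toFinset]
      exact h3
    refine (Finset.card_le_card h1).trans ((Finset.card_union_le _ _).trans ?_)
    rw [Finset.card_singleton, Option.card_toFinset]
    cases b q <;> simp

theorem slr2_bi (I : Inst ι L) (h : SB ι) (Sg : Finset (Ix ι)) (a : (ι × Bool) × (ι × Bool) → ι)
    (b : (ι × Bool) × (ι × Bool) → Option ι) (F : Finset ι)
    (hF : ∀ p ∈ F, ∃ s ∈ Sg, ∃ q, I.node h s.1 s.2 = some q ∧ (p = a q ∨ b q = some p)) :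
    F.card ≤ Sg.card * 2 := by
  have h1 : F ⊆ Sg.biUnion (fun s => Finset.univ.filter
      (fun p : ι => ∃ q, I.node h s.1 s.2 = some q ∧ (p = a q ∨ b q = some p))) := by
    intro p hp
    obtain ⟨s, hs, q, h2⟩ := hF p hp
    rw [Finset.mem_biUnion]
    exact ⟨s, hs, Finset.mem_filter.2 ⟨Finset.mem_univ _, q, h2⟩⟩
  exact (Finset.card_le_card h1).trans (Finset.card_biUnion_le_card_mul _ _ _ fun s _ => slr2_two _ a b)

/-- PROOF. `A` is a list: the set is contained in the union over `s ∈ A.toFinset` of a set with at most two elements (the slot of the end and the target slot of the node of `s`: with `Option.getD` or by cases). `List.toFinset_card_le`,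
`Finset.card_biUnion_le`. -/
theorem iK_card_list (I : Inst ι L) (A : List (Ix ι)) (h : SB ι) : (I.iK (fun s => s ∈ A) h).card ≤ 2 * A.length := by
  have h1 := slr2_bi I h A.toFinset (fun q => q.2.1) (fun q => I.tgt h q.2) (I.iK (fun s => s ∈ A) h) (by
    intro p hp
    rw [mem_iK] at hp
    obtain ⟨s, q, hs, hq, h2⟩ := hp
    exact ⟨s, List.mem_toFinset.2 hs, q, hq, h2⟩)
  have h2 := List.toFinset_card_le A
  omega

/-- PROOF. As `iK_card_list` for the finite set `(roots) ×ˢ strs (r + 1)` with `hR : number of roots ≤ c` (slots `q.2.1`, `q.1.1`). -/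
theorem rcA_card_aux (I : Inst ι L) (T : Finset (ι × Bool)) (r c : ℕ) (h : SB ι)
    (hR : (Finset.univ.filter (fun x => I.Root T x)).card ≤ c) : (I.rcA T r h).card ≤ c * 2 ^ (r + 2) := by
  have h1 := slr2_bi I h ((Finset.univ.filter (fun x => I.Root T x)) ×ˢ strs (r + 1)) (fun q => q.2.1)
    (fun q => some q.1.1) (I.rcA T r h) (by
    intro p hp
    unfold Inst.rcA at hp
    rw [Finset.mem_filter] at hp
    obtain ⟨-, x, l, q, hx, hl, hq, h2⟩ := hp
    refine ⟨(x, l), ?_, q, hq, ?_⟩
    · rw [Finset.mem_product]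
      exact ⟨Finset.mem_filter.2 ⟨Finset.mem_univ _, hx⟩, mem_strs.2 (Nat.lt_succ_of_le hl)⟩
    · rcases h2 with h2 | h2
      · exact Or.inl h2
      · exact Or.inr (by rw [h2]))
  rw [Finset.card_product] at h1
  have h3 := card_strs (r + 1)
  have h4 : (strs (r + 1)).card ≤ 2 ^ (r + 1) := by omega
  calc _ ≤ _ := h1
    _ ≤ c * 2 ^ (r + 1) * 2 := Nat.mul_le_mul_right _ (Nat.mul_le_mul hR h4)
    _ = c * 2 ^ (r + 2) := by rw [pow_succ 2 (r + 1)]; ring

/-- PROOF. The same with `strs r` (slots `q.2.1` and the target). -/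
theorem rcK_card_aux (I : Inst ι L) (T : Finset (ι × Bool)) (r c : ℕ) (h : SB ι)
    (hR : (Finset.univ.filter (fun x => I.Root T x)).card ≤ c) : (I.rcK T r h).card ≤ c * 2 ^ (r + 2) := by
  have h1 := slr2_bi I h ((Finset.univ.filter (fun x => I.Root T x)) ×ˢ strs r) (fun q => q.2.1)
    (fun q => I.tgt h q.2) (I.rcK T r h) (by
    intro p hp
    unfold Inst.rcK at hp
    rw [Finset.mem_filter] at hp
    obtain ⟨-, x, l, q, hx, hl, hq, h2⟩ := hp
    refine ⟨(x, l), ?_, q, hq, h2⟩
    rw [Finset.mem_product]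
    exact ⟨Finset.mem_filter.2 ⟨Finset.mem_univ _, hx⟩, mem_strs.2 hl⟩)
  rw [Finset.card_product] at h1
  have h3 := card_strs r
  have h4 : (strs r).card ≤ 2 ^ (r + 1) := by rw [pow_succ]; omega
  calc _ ≤ _ := h1
    _ ≤ c * 2 ^ (r + 1) * 2 := Nat.mul_le_mul_right _ (Nat.mul_le_mul hR h4)
    _ = c * 2 ^ (r + 2) := by rw [pow_succ 2 (r + 1)]; ring

/-- PROOF. Subset of the finite set `univ ×ˢ strs r`. -/
theorem restr_finite' (I : Inst ι L) (T : Finset (ι × Bool)) (r ℓ : ℕ) (h : SB ι) :
    {s | I.Restr T r ℓ h s}.Finite := by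
  refine Set.Finite.subset (Finset.finite_toSet ((Finset.univ : Finset (ι × Bool)) ×ˢ strs r)) ?_
  rintro ⟨x, l⟩ hs
  rw [Finset.mem_coe, Finset.mem_product]
  exact ⟨Finset.mem_univ _, mem_strs.2 hs.2.1⟩

end Pool.Agent.H38H
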