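import Pool.Agent.Lib.H38H.R.R0

/-!
Chunk SLR8 (M). The probability that a target is new and in a given set.
-/

set_option autoImplicit false

namespace Pool.Agent.H38H

open Classical

variable {ι : Type} [Fintype ι] {L : ℕ}

/-- the probability that the position of a half has its slot outside `K` and in `Z` -/
theorem slr8_link {K : Finset ι} (h : SB ι) (y : ι × Bool) (Z : Finset ι)
    (hn : 2 * K.card < Fintype.card ι) :
    avg K h (fun h' => if (pa h' y).1 ∉ K ∧ (pa h' y).1 ∈ Z then 1 else 0) ≤
      2 * (Z.card : ℝ) / Fintype.card ι := by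
  have hpos : (0 : ℝ) ≤ 2 * (Z.card : ℝ) / Fintype.card ι := by positivity
  have hn' : 2 * (K.card : ℝ) < Fintype.card ι := by exact_mod_cast hn
  by_cases hl : y.1 ∈ lk K h
  · have h1 : ∀ h' ∈ cyl K h, (if (pa h' y).1 ∉ K ∧ (pa h' y).1 ∈ Z then (1 : ℝ) else 0) = 0 := by
      intro h' hh
      rw [if_neg]
      rintro ⟨h2, -⟩
      apply h2
      rw [pa_congr hh hl, pa_fst]
      exact mem_lk.1 hl
    rw [avg_congr h1, avg_const]
    exact hpos
  · obtain ⟨l, i⟩ := y
    have h1 := avg_link (K := K) (h := h) (l := l) hl i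
      (fun w => if w.1 ∉ K ∧ w.1 ∈ Z then (1 : ℝ) else 0)
    rw [h1]
    have h2 : (∑ w ∈ Finset.univ.filter (fun w : ι × Bool => w.1 ∉ K),
        (if w.1 ∉ K ∧ w.1 ∈ Z then (1 : ℝ) else 0)) ≤ 2 * (Z.card : ℝ) := by
      calc (∑ w ∈ Finset.univ.filter (fun w : ι × Bool => w.1 ∉ K),
            (if w.1 ∉ K ∧ w.1 ∈ Z then (1 : ℝ) else 0))
          ≤ ∑ w : ι × Bool, (if w.1 ∉ K ∧ w.1 ∈ Z then (1 : ℝ) else 0) := by
            refine Finset.sum_le_sum_of_subset_of_nonneg (Finset.filter_subset _ _) ?_
            intro w _ _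
            split_ifs <;> norm_num
        _ = ((Finset.univ.filter (fun w : ι × Bool => w.1 ∉ K ∧ w.1 ∈ Z)).card : ℝ) := by
            rw [Finset.sum_boole]
        _ ≤ ((Z ×ˢ (Finset.univ : Finset Bool)).card : ℝ) := by
            have h3 : (Finset.univ.filter (fun w : ι × Bool => w.1 ∉ K ∧ w.1 ∈ Z)) ⊆
                Z ×ˢ (Finset.univ : Finset Bool) := by
              intro w hw
              rw [Finset.mem_filter] at hw
              rw [Finset.mem_product]
              exact ⟨hw.2.2, Finset.mem_univ _⟩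
            exact_mod_cast Finset.card_le_card h3
        _ = 2 * (Z.card : ℝ) := by
            rw [Finset.card_product, Finset.card_univ, Fintype.card_bool]
            push_cast
            ring
    have hK : (0 : ℝ) ≤ K.card := by positivity
    have hc : (0 : ℝ) < Fintype.card ι := by linarith
    have h4 : (Fintype.card ι : ℝ) ≤ 2 * ((Fintype.card ι : ℝ) - K.card) := by linarith
    calc (∑ w ∈ Finset.univ.filter (fun w : ι × Bool => w.1 ∉ K),
          (if w.1 ∉ K ∧ w.1 ∈ Z then (1 : ℝ) else 0)) / (2 * ((Fintype.card ι : ℝ) - K.card))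
        ≤ 2 * (Z.card : ℝ) / (2 * ((Fintype.card ι : ℝ) - K.card)) :=
          div_le_div_of_nonneg_right h2 (by linarith)
      _ ≤ 2 * (Z.card : ℝ) / Fintype.card ι :=
          div_le_div_of_nonneg_left (by positivity) hc h4

/-- PROOF. For `h' ∈ cyl K h` one has `ap h' e = ap h e` (`ap_congr`). If `I.kind (ap h e).1` is `b`, or there is no partner, the target is `none` and the average is `0` (`avg_congr`, `avg_const`). Kind `c`, `I.Mc (ap h e) = some y`: the target of `e` for
`h'` is `(pa h' y).1`. If `y.1 ∈ lk K h` then `pa h' y = pa h y` (`pa_congr`) has its slot in `K` (`mem_lk`, `pa_fst`): the average is `0`. Otherwise `avg_link` with `F w = if w.1 ∉ K ∧ w.1 ∈ Z then 1 else 0`: the sum is at most `2 * Z.card`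
(positions with slot in `Z`), and `2 (n - |K|) ≥ n`. Kind `d`: the target is `h'.1.symm l = (pa h' (l, false)).1`, the same. -/
theorem tgt_prob (I : Inst ι L) {K : Finset ι} (h : SB ι) {e : ι × Bool} (he : e.1 ∈ K) (Z : Finset ι)
    (hn : 2 * K.card < Fintype.card ι) :
    avg K h (fun h' => if ∃ p, I.tgt h' e = some p ∧ p ∉ K ∧ p ∈ Z then 1 else 0) ≤
      2 * (Z.card : ℝ) / Fintype.card ι := by
  have hpos : (0 : ℝ) ≤ 2 * (Z.card : ℝ) / Fintype.card ι := by positivity
  have zero : (∀ h' ∈ cyl K h, I.tgt h' e = none) →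
      avg K h (fun h' => if ∃ p, I.tgt h' e = some p ∧ p ∉ K ∧ p ∈ Z then 1 else 0) ≤
        2 * (Z.card : ℝ) / Fintype.card ι := by
    intro h0
    have h1 : ∀ h' ∈ cyl K h,
        (if ∃ p, I.tgt h' e = some p ∧ p ∉ K ∧ p ∈ Z then (1 : ℝ) else 0) = 0 := by
      intro h' hh
      rw [if_neg]
      rintro ⟨p, hp, -⟩
      rw [h0 h' hh] at hp
      cases hp
    rw [avg_congr h1, avg_const]
    exact hpos
  have main : ∀ y : ι × Bool, (∀ h' ∈ cyl K h, I.tgt h' e = some (pa h' y).1) →
      avg K h (fun h' => if ∃ p, I.tgt h' e = some p ∧ p ∉ K ∧ p ∈ Z then 1 else 0) ≤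
        2 * (Z.card : ℝ) / Fintype.card ι := by
    intro y h0
    have h1 : ∀ h' ∈ cyl K h,
        (if ∃ p, I.tgt h' e = some p ∧ p ∉ K ∧ p ∈ Z then (1 : ℝ) else 0) =
          (if (pa h' y).1 ∉ K ∧ (pa h' y).1 ∈ Z then (1 : ℝ) else 0) := by
      intro h' hh
      refine if_congr ?_ rfl rfl
      rw [h0 h' hh]
      constructor
      · rintro ⟨p, hp, h2⟩
        rw [Option.some.inj hp]
        exact h2
      · intro h2
        exact ⟨_, rfl, h2⟩
    rw [avg_congr h1]
    exact slr8_link h y Z hn
  cases hk : I.kind (ap h e).1 with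
  | b =>
    apply zero
    intro h' hh
    unfold Inst.tgt
    rw [ap_congr hh he]
    simp only [hk]
  | c =>
    cases hM : I.Mc (ap h e) with
    | none =>
      apply zero
      intro h' hh
      unfold Inst.tgt
      rw [ap_congr hh he]
      simp only [hk, hM, Option.map_none]
    | some y =>
      apply main y
      intro h' hh
      unfold Inst.tgt
      rw [ap_congr hh he]
      simp only [hk, hM, Option.map_some]
  | d =>
    cases hM : I.Md (ap h e).1 with
    | none =>
      apply zero
      intro h' hh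
      unfold Inst.tgt
      rw [ap_congr hh he]
      simp only [hk, hM, Option.map_none]
    | some l =>
      apply main (l, false)
      intro h' hh
      unfold Inst.tgt
      rw [ap_congr hh he]
      simp only [hk, hM, Option.map_some]
      rfl

end Pool.Agent.H38H
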