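import Pool.Agent.Lib.H38H.R.R1
import Pool.Agent.Lib.H38H.R.R2
import Pool.Agent.Lib.H38H.R.R8
import Pool.Agent.Lib.H38H.O2

/-!
Chunk SLR9 (M). The probability of a flag; congruence of the number of flags.
-/

set_option autoImplicit false

namespace Pool.Agent.H38H

open Classical

variable {ι : Type} [Fintype ι] {L : ℕ}

/-- PROOF. Induction on `A`. -/
theorem GdL.pc {A : List (Ix ι)} (g : GdL A) : PC (fun s : Ix ι => s ∈ A) := by
  induction A with
  | nil =>
    intro x b l h
    exact absurd h List.not_mem_nil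
  | cons s A ih =>
    obtain ⟨g1, -, g3⟩ := g
    intro x b l h
    rcases List.mem_cons.1 h with h1 | h1
    · have h2 := g3 b l (by rw [← h1])
      rw [← h1] at h2
      exact List.mem_cons_of_mem _ h2
    · exact List.mem_cons_of_mem _ (ih g1 x b l h1)

/-- PROOF. `Finset.card_union_le`, `card_short`, `card_biUnion_le`, `ball_card`. -/
theorem card_dgr (I : Inst ι L) (Rt : Finset ι) (ℓ : ℕ) (K : Finset ι) :
    (I.dgr Rt ℓ K).card ≤ 20 * ℓ * L + (K.card + Rt.card) * (20 * ℓ + 9) := by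
  unfold Inst.dgr
  refine (Finset.card_union_le _ _).trans (Nat.add_le_add (card_short I ℓ) ?_)
  refine (Finset.card_biUnion_le_card_mul _ _ (20 * ℓ + 9) fun p _ => ?_).trans ?_
  · refine (ball_card I _ p).trans ?_
    omega
  · exact Nat.mul_le_mul_right _ (Finset.card_union_le _ _)

/-- PROOF. Put `K = iK A h`. For `h' ∈ cyl K h`: `iK A h' = K` (`iK_congr`, `g.1.pc`) and `node h' s.1 s.2 = node h s.1 s.2` (`iK_node`, third part of `g`). If the node does not exist the flag is false, average `0`. Otherwise let `q` be the node, `e = q.2`,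
`K' = insert e.1 K`, `Z = I.dgr Rt ℓ K'`: `flag A h' s ↔ ∃ p, tgt h' e = some p ∧ p ∉ K' ∧ p ∈ Z`. If `e.1 ∈ K` then `K' = K` and `tgt_prob`. In general (also if `e.1 ∈ K`): `avg_tower` with `stop_slot K h e.1` and `tgt_prob` for every
`h'` (`avg_mono`, `avg_const`). `|K'| ≤ 2 * A.length + 1` (`iK_card_list`), `card_dgr`. -/
theorem flag_prob (I : Inst ι L) (Rt : Finset ι) (ℓ : ℕ) {A : List (Ix ι)} {s : Ix ι} (g : GdL (s :: A)) (h : SB ι)
    (hn : 2 * (2 * A.length + 1) < Fintype.card ι) :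
    avg (I.iK (fun s => s ∈ A) h) h (fun h' => if I.flag Rt ℓ A h' s then 1 else 0) ≤
      2 * (20 * ℓ * L + (2 * A.length + 1 + Rt.card) * (20 * ℓ + 9) : ℝ) / Fintype.card ι := by
  have hpos : (0 : ℝ) ≤ 2 * (20 * ℓ * L + (2 * A.length + 1 + Rt.card) * (20 * ℓ + 9) : ℝ) /
      Fintype.card ι := by positivity
  obtain ⟨g1, g2, g3⟩ := g
  have hiK : ∀ h' ∈ cyl (I.iK (fun s => s ∈ A) h) h,
      I.iK (fun s => s ∈ A) h' = I.iK (fun s => s ∈ A) h := fun h' hh => iK_congr I g1.pc hh
  have hnode : ∀ h' ∈ cyl (I.iK (fun s => s ∈ A) h) h, I.node h' s.1 s.2 = I.node h s.1 s.2 :=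
    fun h' hh => iK_node I g1.pc hh s.1 s.2 g3
  cases hq : I.node h s.1 s.2 with
  | none =>
    have h1 : ∀ h' ∈ cyl (I.iK (fun s => s ∈ A) h) h,
        (if I.flag Rt ℓ A h' s then (1 : ℝ) else 0) = 0 := by
      intro h' hh
      rw [if_neg]
      rintro ⟨q, p, h2, -⟩
      rw [hnode h' hh, hq] at h2
      cases h2
    rw [avg_congr h1, avg_const]
    exact hpos
  | some q =>
    set K := I.iK (fun s => s ∈ A) h with hK
    have h1 : ∀ h' ∈ cyl K h, (if I.flag Rt ℓ A h' s then (1 : ℝ) else 0) =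
        (if ∃ p, I.tgt h' q.2 = some p ∧ p ∉ insert q.2.1 K ∧ p ∈ I.dgr Rt ℓ (insert q.2.1 K)
          then (1 : ℝ) else 0) := by
      intro h' hh
      refine if_congr ?_ rfl rfl
      unfold Inst.flag
      rw [hnode h' hh, hq, hiK h' hh]
      constructor
      · rintro ⟨q', p, h2, h3⟩
        rw [← Option.some.inj h2] at h3
        exact ⟨p, h3⟩
      · rintro ⟨p, h3⟩
        exact ⟨q, p, rfl, h3⟩
    have hKc : (insert q.2.1 K).card ≤ 2 * A.length + 1 := by
      refine (Finset.card_insert_le _ _).trans ?_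
      have h0 : K.card ≤ 2 * A.length := iK_card_list I A h
      omega
    rw [avg_congr h1, avg_tower (stop_slot K h q.2.1)]
    refine (avg_mono (g := fun _ => 2 * (20 * ℓ * L + (2 * A.length + 1 + Rt.card) *
      (20 * ℓ + 9) : ℝ) / Fintype.card ι) fun h' _ => ?_).trans (avg_const _ _ _).le
    refine (tgt_prob I h' (Finset.mem_insert_self _ _) (I.dgr Rt ℓ (insert q.2.1 K))
      (by omega)).trans ?_
    apply div_le_div_of_nonneg_right _ (by positivity)
    have h2 : ((I.dgr Rt ℓ (insert q.2.1 K)).card : ℝ) ≤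
        20 * ℓ * L + (2 * A.length + 1 + Rt.card) * (20 * ℓ + 9) := by
      have h3 := card_dgr I Rt ℓ (insert q.2.1 K)
      have h4 : (I.dgr Rt ℓ (insert q.2.1 K)).card ≤
          20 * ℓ * L + (2 * A.length + 1 + Rt.card) * (20 * ℓ + 9) := by
        refine h3.trans (Nat.add_le_add_left (Nat.mul_le_mul_right _ ?_) _)
        omega
      exact_mod_cast h4
    linarith

/-- PROOF. Induction on `A`: for `s :: A`: `iK A h ⊆ iK (s :: A) h`, so `h' ∈ cyl (iK A h) h` (`cyl_mono`, `iK_mono`), and the first part is the induction hypothesis. The flag of `s`: `iK A h' = iK A h` (`iK_congr`), the node of `s` is the same (`iK_node` for the list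
`A`), and its target is the same (`iK_tg` for the list `s :: A`, or `tgt_congr`). -/
theorem nflag_congr (I : Inst ι L) (Rt : Finset ι) (ℓ : ℕ) {A : List (Ix ι)} (g : GdL A) {h h' : SB ι}
    (hh : h' ∈ cyl (I.iK (fun s => s ∈ A) h) h) : I.nflag Rt ℓ h' A = I.nflag Rt ℓ h A := by
  induction A with
  | nil => rfl
  | cons s A ih =>
    have hsub : I.iK (fun t => t ∈ A) h ⊆ I.iK (fun t => t ∈ s :: A) h :=
      iK_mono I (fun t ht => List.mem_cons_of_mem _ ht) h
    have hh1 : h' ∈ cyl (I.iK (fun t => t ∈ A) h) h := cyl_mono hsub h hh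
    have e1 := ih g.1 hh1
    have e2 : I.flag Rt ℓ A h' s ↔ I.flag Rt ℓ A h s := by
      unfold Inst.flag
      rw [iK_node I g.1.pc hh1 s.1 s.2 g.2.2, iK_congr I g.1.pc hh1]
      have ht : ∀ q, I.node h s.1 s.2 = some q → I.tgt h' q.2 = I.tgt h q.2 := by
        intro q hq
        have hs : s ∈ s :: A := List.mem_cons_self
        exact tgt_congr I hh ((mem_iK I).2 ⟨s, q, hs, hq, Or.inl rfl⟩)
          (fun p hp => (mem_iK I).2 ⟨s, q, hs, hq, Or.inr hp⟩)
      constructor
      · rintro ⟨q, p, h1, h2, h3⟩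
        rw [ht q h1] at h2
        exact ⟨q, p, h1, h2, h3⟩
      · rintro ⟨q, p, h1, h2, h3⟩
        rw [← ht q h1] at h2
        exact ⟨q, p, h1, h2, h3⟩
    show I.nflag Rt ℓ h' A + (if I.flag Rt ℓ A h' s then 1 else 0) =
      I.nflag Rt ℓ h A + (if I.flag Rt ℓ A h s then 1 else 0)
    rw [e1]
    congr 1
    exact if_congr e2 rfl rfl

end Pool.Agent.H38H
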