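import Pool.Agent.Lib.H38H.R.R5
import Pool.Agent.Lib.H38H.R.R9
import Pool.Agent.Lib.H38H.R.R11

/-!
Chunk SLR12 (M). Under the root condition an index whose target is dangerous is flagged.
-/

set_option autoImplicit false

namespace Pool.Agent.H38H

open Classical

variable {ι : Type} [Fintype ι] {L : ℕ}

/-- PROOF. Let `s = (x, l)`, `q` its node, `a` the node of `(x, false :: l)`: `p = a.1.1` (`rc_child`). Suppose `p` is `q.2.1` or in `iK A'`. (1) `p = q'.2.1` for the node `q'` of `(y, m)` (`(y, m) = s` or in `A'`): `rc.mixed` for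
`(y, m)` and `(x, false :: l)` gives `y = x`, `m = b :: l`, so `(y, m) ≠ s` is a child of `s` and in `A'`; `A'` is closed under parents (`GdL.pc`), so `s ∈ A'`: contradiction to `GdL (s :: A')`. (2) `p` is the target of `(y, m) ∈ A'`, i.e. the target slot of the node of
`(y, false :: m)`: `rc.targets` gives `(y, m) = s ∈ A'`. Contradiction. -/
theorem tg_fresh (I : Inst ι L) {T : Finset (ι × Bool)} {r K0 : ℕ} {h : SB ι} (rc : I.RC h r K0 T)
    {s : Ix ι} {A' : List (Ix ι)} (g : GdL (s :: A')) (hA : ∀ s' ∈ s :: A', I.Root T s'.1 ∧ s'.2.length < r)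
    {q : Mv ι} {p : ι} (hq : I.node h s.1 s.2 = some q) (hp : I.tgt h q.2 = some p) :
    p ∉ insert q.2.1 (I.iK (fun s => s ∈ A') h) := by
  obtain ⟨hxR, hlr⟩ := hA s List.mem_cons_self
  obtain ⟨q0, a, h1, h2, h3, -⟩ := rc_child I rc hxR hlr false
  rw [hq] at h1
  obtain rfl := Option.some.inj h1
  rw [hp] at h3
  have hpa : p = a.1.1 := Option.some.inj h3
  intro hmem
  rw [Finset.mem_insert, mem_iK] at hmem
  rcases hmem with h4 | ⟨s', q', hs', hq', h4 | h4⟩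
  · obtain ⟨-, -, b, h5⟩ := rc.mixed s.1 s.1 hxR hxR false s.2 s.2 hlr.le hlr q a hq h2 (by rw [← h4, hpa])
    have h6 := congrArg List.length h5
    simp at h6
  · obtain ⟨hx', hl'⟩ := hA s' (List.mem_cons_of_mem _ hs')
    obtain ⟨h5, -, b, h6⟩ := rc.mixed s'.1 s.1 hx' hxR false s'.2 s.2 hl'.le hlr q' a hq' h2 (by rw [← h4, hpa])
    have h7 : s' = (s.1, b :: s.2) := Prod.ext h5 h6
    rw [h7] at hs'
    have h8 := g.1.pc s.1 b s.2 hs'
    exact g.2.1 h8
  · obtain ⟨hx', hl'⟩ := hA s' (List.mem_cons_of_mem _ hs')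
    obtain ⟨q1, a', h5, h6, h7, -⟩ := rc_child I rc hx' hl' false
    rw [hq'] at h5
    obtain rfl := Option.some.inj h5
    rw [h4] at h7
    have h8 : p = a'.1.1 := Option.some.inj h7
    obtain ⟨h9, h10⟩ := rc.targets s'.1 s.1 hx' hxR false false s'.2 s.2 hl' hlr a' a h6 h2 (by rw [← h8, hpa])
    have h11 : s' = s := Prod.ext h9 h10
    exact g.2.1 (h11 ▸ hs')

/-- PROOF. `tg h s = some p` means that there is a node `q` with `tgt h q.2 = some p`. `tg_fresh`, and `p ∈ I.dgr ..`: `hd`; in the last case the slot `p'` is in `iK A'`. -/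
theorem flag_of (I : Inst ι L) {T : Finset (ι × Bool)} {r K0 ℓ : ℕ} {h : SB ι} (rc : I.RC h r K0 T)
    {s : Ix ι} {A' : List (Ix ι)} (g : GdL (s :: A')) (hA : ∀ s' ∈ s :: A', I.Root T s'.1 ∧ s'.2.length < r)
    {p : ι} (hp : I.tg h s = some p)
    (hd : p ∈ I.short ℓ ∨ (∃ y, I.Root T y ∧ p ∈ I.ball (10 * ℓ + 4) y.1) ∨
      ∃ s' ∈ A', ∃ p', I.tg h s' = some p' ∧ p ∈ I.ball (10 * ℓ + 4) p') :
    I.flag (I.rts T) ℓ A' h s := by
  obtain ⟨q, hq, hqp⟩ := Option.bind_eq_some_iff.1 hp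
  refine ⟨q, p, hq, hqp, tg_fresh I rc g hA hq hqp, ?_⟩
  unfold Inst.dgr
  rw [Finset.mem_union, Finset.mem_biUnion]
  rcases hd with h1 | ⟨y, hy, h1⟩ | ⟨s', hs', p', hp', h1⟩
  · exact Or.inl h1
  · refine Or.inr ⟨y.1, ?_, h1⟩
    rw [Finset.mem_union]
    right
    unfold Inst.rts
    rw [Finset.mem_image]
    exact ⟨y, by rw [Finset.mem_filter]; exact ⟨Finset.mem_univ _, hy⟩, rfl⟩
  · refine Or.inr ⟨p', ?_, h1⟩
    rw [Finset.mem_union, Finset.mem_insert, mem_iK]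
    left
    right
    obtain ⟨q', hq', hqp'⟩ := Option.bind_eq_some_iff.1 hp'
    exact ⟨s', q', hs', hq', Or.inr hqp'⟩

end Pool.Agent.H38H
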