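import Pool.Agent.Lib.H38H.R.R0
import Pool.Agent.Lib.H38H.O2
import Pool.Agent.Lib.H38H.P9

/-!
Chunk SLR3 (M). Representatives of the tiny cycles; the number of roots. (`SameF_symm`: file P9; `card_ends`: file O2.)
-/

set_option autoImplicit false

namespace Pool.Agent.H38H

open Classical

variable {ι : Type} [Fintype ι] {L : ℕ}

theorem slr3_tiny (I : Inst ι L) {K : ℕ} {x y : ι × Bool} (e : I.SameF x y) (ht : I.Tiny K x) :
    I.Tiny K y := by
  refine ⟨fun z hz => ht.1 z (Relation.ReflTransGen.trans e hz), ?_⟩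
  have h1 : Nat.card {z // I.SameF y z} = Nat.card {z // I.SameF x z} :=
    Nat.card_congr (Equiv.subtypeEquivRight fun z => ⟨fun hz => Relation.ReflTransGen.trans e hz,
      fun hz => Relation.ReflTransGen.trans (SameF_symm I e) hz⟩)
  rw [h1]
  exact ht.2

/-- PROOF. `SameF` is an equivalence relation (`Relation.ReflTransGen`, `SameF_symm`), `Tiny` is invariant under it. Let `rep z = Quotient.out` of the class of `z` (setoid `SameF`), `T = {x | Tiny x, rep x = x}`. For tiny `z`: `rep z` is
tiny, related to `z`, and in `T`; if `x ∈ T` is related to `z` then `x = rep x = rep z`. -/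
theorem validT_exists' (I : Inst ι L) (K0 : ℕ) : ∃ T : Finset (ι × Bool), I.ValidT K0 T := by
  let s : Setoid (ι × Bool) :=
    { r := I.SameF
      iseqv := ⟨fun _ => Relation.ReflTransGen.refl, fun h => SameF_symm I h,
        fun h h' => Relation.ReflTransGen.trans h h'⟩ }
  let rep : ι × Bool → ι × Bool := fun x => (Quotient.mk s x).out
  have hrep : ∀ x, I.SameF (rep x) x := fun x => Quotient.exact (Quotient.out_eq (Quotient.mk s x))
  have hrep' : ∀ x y, I.SameF x y → rep x = rep y := by
    intro x y h
    show (Quotient.mk s x).out = (Quotient.mk s y).out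
    rw [Quotient.sound (s := s) h]
  refine ⟨Finset.univ.filter (fun x => I.Tiny K0 x ∧ rep x = x), fun x hx => (Finset.mem_filter.1 hx).2.1,
    fun z hz => ⟨rep z, ⟨?_, hrep z⟩, ?_⟩⟩
  · rw [Finset.mem_filter]
    exact ⟨Finset.mem_univ _, slr3_tiny I (SameF_symm I (hrep z)) hz, hrep' _ _ (hrep z)⟩
  · rintro x ⟨hx, hxz⟩
    rw [← (Finset.mem_filter.1 hx).2.2]
    exact hrep' _ _ hxz

/-- PROOF. `I.comps_le`: every `x ∈ T` is reached from some `t x` in a set with at most `L` elements; `t` is injective on `T`: if `t x = t x'` then `x`, `x'` are related, and both equal the unique element of `T` related to `x` (`x` is tiny). -/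
theorem validT_card' (I : Inst ι L) {K0 : ℕ} {T : Finset (ι × Bool)} (hT : I.ValidT K0 T) : T.card ≤ L := by
  obtain ⟨T0, hT0, hcov⟩ := I.comps_le
  have hcov' : ∀ x, ∃ t ∈ T0, I.SameF t x := hcov
  choose t ht htx using hcov'
  refine le_trans (Finset.card_le_card_of_injOn t (fun x _ => ht x) ?_) hT0
  intro x hx y hy hxy
  have hx' := hT.1 x hx
  obtain ⟨w, -, hw⟩ := hT.2 x hx'
  have h1 : x = w := hw x ⟨hx, Relation.ReflTransGen.refl⟩
  have h2 : y = w := hw y ⟨hy, Relation.ReflTransGen.trans (SameF_symm I (htx y)) (hxy ▸ htx x)⟩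
  rw [h1, h2]

/-- PROOF. The roots are in `{outer x = none} ∪ T ∪ (image of T under x ↦ (I.outer x).getD x)`: `2 L + L + L` (`card_ends`). -/
theorem root_card' (I : Inst ι L) {K0 : ℕ} {T : Finset (ι × Bool)} (hT : I.ValidT K0 T) :
    (Finset.univ.filter (fun x => I.Root T x)).card ≤ 4 * L := by
  have h1 : Finset.univ.filter (fun x => I.Root T x) ⊆
      (Finset.univ.filter (fun x : ι × Bool => I.outer x = none) ∪ T) ∪ T.image (fun x => (I.outer x).getD x) := by
    intro x hx
    rw [Finset.mem_filter] at hx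
    rw [Finset.mem_union, Finset.mem_union]
    rcases hx.2 with h | h | ⟨y, hy, h⟩
    · exact Or.inl (Or.inl (Finset.mem_filter.2 ⟨Finset.mem_univ _, h⟩))
    · exact Or.inl (Or.inr h)
    · refine Or.inr (Finset.mem_image.2 ⟨y, hy, ?_⟩)
      rw [h]
      rfl
  have h2 := Finset.card_le_card h1
  have h3 := Finset.card_union_le (Finset.univ.filter (fun x : ι × Bool => I.outer x = none) ∪ T)
    (T.image (fun x => (I.outer x).getD x))
  have h4 := Finset.card_union_le (Finset.univ.filter (fun x : ι × Bool => I.outer x = none)) T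
  have h5 : (T.image (fun x => (I.outer x).getD x)).card ≤ T.card := Finset.card_image_le
  have h6 := validT_card' I hT
  have h7 := card_ends I
  omega

end Pool.Agent.H38H
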