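import Pool.Agent.Lib.H38H.R.R1

/-!
Chunk SLR4 (M). What is determined by the slots of the root trees. (`rcK_eq`, `pc_root` in R0 reduce to R1.)
-/

set_option autoImplicit false

namespace Pool.Agent.H38H

open Classical

variable {ι : Type} [Fintype ι] {L : ℕ}

/-- PROOF. `rcK_eq`, `pc_root`, `iK_stop`. -/
theorem rcK_stop' (I : Inst ι L) (T : Finset (ι × Bool)) (r : ℕ) (h : SB ι) : Stop ∅ h (I.rcK T r) := by
  have h1 : I.rcK T r = I.iK (fun s => I.Root T s.1 ∧ s.2.length < r) := funext (rcK_eq I T r)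
  rw [h1]
  exact iK_stop I (pc_root I T r) h

/-- PROOF. `rcK_eq`, `iK_node`: for `l = b :: m` the string `m` is shorter than `r`. -/
theorem rc_node_congr' (I : Inst ι L) {T : Finset (ι × Bool)} {r : ℕ} {h h' : SB ι}
    (hh : h' ∈ cyl (I.rcK T r h) h) {x : ι × Bool} (hx : I.Root T x) {l : List Bool} (hl : l.length ≤ r) :
    I.node h' x l = I.node h x l := by
  rw [rcK_eq] at hh
  refine iK_node I (pc_root I T r) hh x l ?_
  intro b m e
  refine ⟨hx, ?_⟩
  rw [e, List.length_cons] at hl
  show m.length < r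
  omega

/-- PROOF. `iK_tg`. -/
theorem rc_tg_congr' (I : Inst ι L) {T : Finset (ι × Bool)} {r : ℕ} {h h' : SB ι}
    (hh : h' ∈ cyl (I.rcK T r h) h) {x : ι × Bool} (hx : I.Root T x) {l : List Bool} (hl : l.length < r) :
    I.tg h' (x, l) = I.tg h (x, l) := by
  rw [rcK_eq] at hh
  exact iK_tg I (pc_root I T r) hh (s := (x, l)) ⟨hx, hl⟩

/-- one implication of `rc_congr'` -/
theorem slr4_imp (I : Inst ι L) {T : Finset (ι × Bool)} {r K0 : ℕ} {h h' : SB ι}
    (hh : ∀ x, I.Root T x → ∀ l : List Bool, l.length ≤ r → I.node h' x l = I.node h x l)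
    (hR : I.RC h r K0 T) : I.RC h' r K0 T := by
  have hc : ∀ x, I.Root T x → ∀ (b : Bool) (l : List Bool), l.length < r →
      I.node h' x (b :: l) = I.node h x (b :: l) := by
    intro x hx b l hl
    apply hh x hx
    rw [List.length_cons]
    omega
  refine ⟨?_, ?_, ?_, ?_, ?_⟩
  · intro x hx l hl
    rw [hh x hx l hl]
    exact hR.ok x hx l hl
  · intro x y hx hy l m hl hm p q hp hq
    rw [hh x hx l hl] at hp
    rw [hh y hy m hm] at hq
    exact hR.ends x y hx hy l m hl hm p q hp hq
  · intro x y hx hy b c l m hl hm p q hp hq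
    rw [hc x hx b l hl] at hp
    rw [hc y hy c m hm] at hq
    exact hR.targets x y hx hy b c l m hl hm p q hp hq
  · intro x y hx hy c l m hl hm p q hp hq
    rw [hh x hx l hl] at hp
    rw [hc y hy c m hm] at hq
    exact hR.mixed x y hx hy c l m hl hm p q hp hq
  · intro x hx b l hl p hp
    rw [hc x hx b l hl] at hp
    exact hR.noTiny x hx b l hl p hp

/-- PROOF. All clauses of `RC` speak about nodes of strings of length at most `r` with roots `x`: `rc_node_congr'`. It is enough to prove one implication for all `h`, `h'` with `rc_node_congr'` for all strings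
(the relation between `h` and `h'` is symmetric: `cyl (rcK h') h'` with `rcK h' = rcK h` by `rcK_stop'`, `cyl_eq_of_mem`, `self_mem_cyl`); or rewrite each clause. -/
theorem rc_congr' (I : Inst ι L) {T : Finset (ι × Bool)} {r K0 : ℕ} {h h' : SB ι}
    (hh : h' ∈ cyl (I.rcK T r h) h) : I.RC h' r K0 T ↔ I.RC h r K0 T := by
  constructor
  · intro hR
    exact slr4_imp I (fun x hx l hl => (rc_node_congr' I hh hx hl).symm) hR
  · intro hR
    exact slr4_imp I (fun x hx l hl => rc_node_congr' I hh hx hl) hR

/-- PROOF. `Restr` only uses `tg` of indices with a root and a string shorter than `r`: `rc_tg_congr'`. -/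
theorem restr_congr' (I : Inst ι L) {T : Finset (ι × Bool)} {r ℓ : ℕ} {h h' : SB ι}
    (hh : h' ∈ cyl (I.rcK T r h) h) (s : (ι × Bool) × List Bool) :
    I.Restr T r ℓ h' s ↔ I.Restr T r ℓ h s := by
  unfold Inst.Restr
  refine and_congr_right fun h1 => and_congr_right fun h2 => ?_
  have e1 : I.tg h' s = I.tg h s := rc_tg_congr' I hh h1 h2
  rw [e1]
  refine exists_congr fun p => and_congr_right fun _ => or_congr Iff.rfl (or_congr Iff.rfl ?_)
  refine exists_congr fun s' => and_congr_right fun _ => and_congr_right fun h3 => and_congr_right fun h4 => ?_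
  have e2 : I.tg h' s' = I.tg h s' := rc_tg_congr' I hh h3 h4
  rw [e2]

end Pool.Agent.H38H
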